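import Pool.Agent.Helper462.Vnr.Defs

namespace VNR

universe u v


theorem no_branches_pre (b b0 : ℕ → Bool) (n : ℕ) (h : ∀ i < n, b i = b0 i) :
    pre b n = pre b0 n := by
  induction n with
  | zero => rfl
  | succ n ih =>
    show b n :: pre b n = b0 n :: pre b0 n
    rw [h n (Nat.lt_succ_self n), ih (fun i hi => h i (Nat.lt_succ_of_lt hi))]

theorem no_branches_mul {A : Type u} [Ring A] (ε : List Bool → A)
    (h1 : ∀ s i, ε (i :: s) * ε s = ε (i :: s)) (b : ℕ → Bool) (n k : ℕ) :
    ε (pre b (n + (k + 1))) * ε (pre b n) = ε (pre b (n + (k + 1))) := by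
  induction k with
  | zero => exact h1 (pre b n) (b n)
  | succ k ih =>
    have e : ε (pre b (n + (k + 1 + 1))) =
        ε (pre b (n + (k + 1 + 1))) * ε (pre b (n + (k + 1))) :=
      (h1 (pre b (n + (k + 1))) (b (n + (k + 1)))).symm
    rw [e, mul_assoc, ih]

theorem no_branches_kill {A : Type u} [Ring A] {T : Type u} [AddCommGroup T] [Module A T]
    (ε : List Bool → A)
    (h0 : ∀ s i, ε (i :: s) * ε ((!i) :: s) = 0)
    (h1 : ∀ s i, ε (i :: s) * ε s = ε (i :: s))
    (v : (ℕ → Bool) → T)
    (hfix : ∀ b n, ε (pre b n) • v b = v b) (b b0 : ℕ → Bool) (hne : b ≠ b0) :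
    ∃ M, ∀ m ≥ M, ε (pre b0 m) • v b = 0 := by
  classical
  have hex : ∃ i, b i ≠ b0 i := Function.ne_iff.1 hne
  set i := Nat.find hex with hi
  have hi1 : b i ≠ b0 i := Nat.find_spec hex
  have hi2 : ∀ j < i, b j = b0 j := fun j hj => not_not.1 (Nat.find_min hex hj)
  refine ⟨i + 2, fun m hm => ?_⟩
  obtain ⟨k, rfl⟩ := Nat.exists_eq_add_of_le hm
  have e1 : i + 2 + k = (i + 1) + (k + 1) := by ring
  have e2 := no_branches_mul ε h1 b0 (i + 1) k
  have e3 : (!b0 i) = b i := by
    revert hi1
    cases b i <;> cases b0 i <;> simp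
  have e4 : ε (pre b0 (i + 1)) * ε (pre b (i + 1)) = 0 := by
    show ε (b0 i :: pre b0 i) * ε (b i :: pre b i) = 0
    rw [no_branches_pre b b0 i hi2, ← e3]
    exact h0 _ _
  rw [e1, ← e2, ← hfix b (i + 1), smul_smul, mul_assoc, e4, mul_zero, zero_smul]

theorem no_branches (A : Type u) [Ring A] (G : Set A)
    (hG : Cardinal.mk G < Cardinal.continuum)
    (hspan : Submodule.span (Subring.center A) G = ⊤)
    (T : Type u) [AddCommGroup T] [Module A T] [IsSimpleModule A T]
    (ε : List Bool → A)
    (h0 : ∀ s i, ε (i :: s) * ε ((!i) :: s) = 0)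
    (h1 : ∀ s i, ε (i :: s) * ε s = ε (i :: s))
    (h2 : ∀ s i, ε s * ε (i :: s) = ε (i :: s))
    (v : (ℕ → Bool) → T) (hv : ∀ b, v b ≠ 0)
    (hfix : ∀ b n, ε (pre b n) • v b = v b) : False := by
  classical
  -- linear independence
  have hli : LinearIndependent (Module.End A T) v := by
    rw [linearIndependent_iff']
    intro F d hsum b0 hb0
    have hkill := no_branches_kill ε h0 h1 v hfix
    have hM : ∃ M, ∀ b ∈ F, b ≠ b0 → ε (pre b0 M) • v b = 0 := by
      choose! Mf hMf using fun b (hb : b ≠ b0) => hkill b b0 hb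
      refine ⟨F.sup Mf, fun b hb hne => hMf b hne _ (Finset.le_sup hb)⟩
    obtain ⟨M, hM⟩ := hM
    have h3 : d b0 • v b0 = 0 := by
      have h4 := congrArg (fun x => ε (pre b0 M) • x) hsum
      simp only [smul_zero, Finset.smul_sum] at h4
      rw [Finset.sum_eq_single_of_mem b0 hb0] at h4
      · have h5 : ε (pre b0 M) • d b0 • v b0 = d b0 • (ε (pre b0 M) • v b0) :=
          ((d b0).map_smul _ _).symm
        rw [h5, hfix] at h4
        exact h4
      · intro b hb hne
        have h5 : ε (pre b0 M) • d b • v b = d b • (ε (pre b0 M) • v b) :=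
          ((d b).map_smul _ _).symm
        rw [h5, hM b hb hne, smul_zero]
    rcases smul_eq_zero.1 h3 with h | h
    · exact h
    · exact absurd h (hv b0)
  -- the span
  set t : T := v (fun _ => false) with ht
  have ht0 : t ≠ 0 := hv _
  have hsp : Submodule.span (Module.End A T) ((fun g : A => g • t) '' G) = ⊤ := by
    rw [eq_top_iff]
    rintro x -
    obtain ⟨a, rfl⟩ := IsSimpleModule.toSpanSingleton_surjective A ht0 x
    show a • t ∈ _
    have ha : a ∈ Submodule.span (Subring.center A) G := by rw [hspan]; trivial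
    induction ha using Submodule.span_induction with
    | mem g hg => exact Submodule.subset_span ⟨g, hg, rfl⟩
    | zero => rw [zero_smul]; exact Submodule.zero_mem _
    | add a b _ _ iha ihb => rw [add_smul]; exact Submodule.add_mem _ iha ihb
    | smul z a _ iha =>
      let f : Module.End A T :=
        { toFun := fun x => (z : A) • x
          map_add' := fun x y => smul_add _ _ _
          map_smul' := fun c x => by
            show (z : A) • c • x = c • (z : A) • x
            rw [smul_smul, smul_smul, (Subring.mem_center_iff.1 z.2 c)] }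
      have e : (z • a) • t = f • (a • t) := by
        show ((z : A) * a) • t = (z : A) • (a • t)
        rw [mul_smul]
      rw [e]
      exact Submodule.smul_mem _ _ iha
  have hrank : Module.rank (Module.End A T) T ≤ Cardinal.mk G := by
    rw [← rank_top (Module.End A T) T, ← hsp]
    exact (rank_span_le _).trans Cardinal.mk_image_le
  have hc := hli.cardinal_lift_le_rank
  have hcard : Cardinal.mk (ℕ → Bool) = Cardinal.continuum := by simp
  rw [hcard, Cardinal.lift_continuum, Cardinal.lift_id'.{0, u}] at hc
  exact absurd (lt_of_le_of_lt (hc.trans hrank) hG) (lt_irrefl _)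

/-- an algebra generated over the centre by fewer than continuum elements is spanned over the
centre by fewer than continuum elements -/
theorem exists_span_of_adjoin (A : Type u) [Ring A] (G : Set A)
    (hG : Cardinal.mk G < Cardinal.continuum)
    (hgen : Algebra.adjoin (Subring.center A) G = ⊤) :
    ∃ G' : Set A, Cardinal.mk G' < Cardinal.continuum ∧
      Submodule.span (Subring.center A) G' = ⊤ := by
  refine ⟨(Submonoid.closure G : Set A), ?_, ?_⟩
  · have h1 : (Submonoid.closure G : Set A) ⊆
        Set.range (fun l : List G => (l.map Subtype.val).prod) := by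
      intro x hx
      obtain ⟨l, hl, rfl⟩ := Submonoid.exists_list_of_mem_closure hx
      lift l to List G using hl
      exact ⟨l, rfl⟩
    refine lt_of_le_of_lt ((Cardinal.mk_le_mk_of_subset h1).trans Cardinal.mk_range_le) ?_
    exact lt_of_le_of_lt (Cardinal.mk_list_le_max G) (max_lt Cardinal.aleph0_lt_continuum hG)
  · rw [← Algebra.adjoin_eq_span, hgen, Algebra.top_toSubmodule]

end VNR
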