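import Pool.Agent.Helper462.Vnr.Defs

namespace VNR

universe u v


theorem vk_two (A : Type u) [Ring A] (hreg : ∀ a : A, ∃ x, a * x * a = a)
    (I : Ideal A) [I.IsTwoSided] (a b : A) (ha : a ∈ I) (hb : b ∈ I) :
    ∃ g ∈ I, g * a = a ∧ g * b = b := by
  obtain ⟨x, hx⟩ := hreg a
  obtain ⟨y, hy⟩ := hreg (b - a * x * b)
  have h1 : a * x ∈ I := I.mul_mem_right x ha
  have hb' : b - a * x * b ∈ I := I.sub_mem hb (I.mul_mem_right b h1)
  have h2 : (b - a * x * b) * y ∈ I := I.mul_mem_right y hb'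
  refine ⟨a * x + (b - a * x * b) * y - (b - a * x * b) * y * (a * x),
    I.sub_mem (I.add_mem h1 h2) (I.mul_mem_right _ h2), ?_, ?_⟩
  · rw [sub_mul, add_mul, hx, mul_assoc ((b - a * x * b) * y) (a * x) a, hx]
    abel
  · have h3 : (a * x + (b - a * x * b) * y - (b - a * x * b) * y * (a * x)) * b =
        a * x * b + (b - a * x * b) * y * (b - a * x * b) := by
      rw [sub_mul, add_mul, mul_sub, mul_assoc ((b - a * x * b) * y) (a * x) b]
      abel
    rw [h3, hy]
    abel

/-- over a regular ring, a two-sided ideal which kills a nonzero element of a uniform module kills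
the module -/
theorem ideal_kills (A : Type u) [Ring A] (hreg : ∀ a : A, ∃ x, a * x * a = a)
    (N : Type u) [AddCommGroup N] [Module A N]
    (hunif : ∀ K L : Submodule A N, K ≠ ⊥ → L ≠ ⊥ → K ⊓ L ≠ ⊥)
    (I : Ideal A) [I.IsTwoSided] (n : N) (hn : n ≠ 0) (hI : ∀ a ∈ I, a • n = 0) :
    ∀ a ∈ I, ∀ x : N, a • x = 0 := by
  let K : Submodule A N :=
    { carrier := {x | ∀ a ∈ I, a • x = 0}
      zero_mem' := fun a _ => smul_zero a
      add_mem' := by
        intro x y hx hy a ha
        rw [smul_add, hx a ha, hy a ha, add_zero]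
      smul_mem' := by
        intro r x hx a ha
        rw [smul_smul]
        exact hx _ (I.mul_mem_right r ha) }
  let L : Submodule A N := Submodule.span A {y | ∃ a ∈ I, ∃ x : N, y = a • x}
  have hK : K ≠ ⊥ := by
    intro h
    have h1 : n ∈ K := hI
    rw [h, Submodule.mem_bot] at h1
    exact hn h1
  have hL1 : ∀ y ∈ L, ∃ f ∈ I, f • y = y := by
    intro y hy
    induction hy using Submodule.span_induction with
    | mem y h =>
      obtain ⟨a, ha, x, rfl⟩ := h
      obtain ⟨g, hg, hga, _⟩ := vk_two A hreg I a a ha ha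
      exact ⟨g, hg, by rw [smul_smul, hga]⟩
    | zero => exact ⟨0, I.zero_mem, smul_zero 0⟩
    | add y z _ _ h1 h2 =>
      obtain ⟨f1, hf1, e1⟩ := h1
      obtain ⟨f2, hf2, e2⟩ := h2
      obtain ⟨g, hg, hg1, hg2⟩ := vk_two A hreg I f1 f2 hf1 hf2
      refine ⟨g, hg, ?_⟩
      have h3 : g • y = y := by
        calc g • y = g • (f1 • y) := by rw [e1]
          _ = (g * f1) • y := by rw [smul_smul]
          _ = y := by rw [hg1, e1]
      have h4 : g • z = z := by
        calc g • z = g • (f2 • z) := by rw [e2]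
          _ = (g * f2) • z := by rw [smul_smul]
          _ = z := by rw [hg2, e2]
      rw [smul_add, h3, h4]
    | smul r y _ h1 =>
      obtain ⟨f, hf, e⟩ := h1
      have hrf : r * f ∈ I := I.mul_mem_left r hf
      obtain ⟨g, hg, hg1, _⟩ := vk_two A hreg I (r * f) (r * f) hrf hrf
      refine ⟨g, hg, ?_⟩
      calc g • (r • y) = g • (r • (f • y)) := by rw [e]
        _ = (g * (r * f)) • y := by rw [smul_smul, smul_smul, mul_assoc]
        _ = (r * f) • y := by rw [hg1]
        _ = r • y := by rw [← smul_smul, e]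
  have hKL : K ⊓ L = ⊥ := by
    rw [eq_bot_iff]
    intro y hy
    obtain ⟨hyK, hyL⟩ := Submodule.mem_inf.1 hy
    obtain ⟨f, hf, e⟩ := hL1 y hyL
    have h1 : f • y = 0 := hyK f hf
    rw [Submodule.mem_bot, ← e, h1]
  have hL : L = ⊥ := by
    by_contra h
    exact hunif K L hK h hKL
  intro a ha x
  have h1 : a • x ∈ L := Submodule.subset_span ⟨a, ha, x, rfl⟩
  rw [hL, Submodule.mem_bot] at h1
  exact h1

theorem vk_ind (A : Type u) [Ring A] (hreg : ∀ a : A, ∃ x, a * x * a = a)
    (N : Type u) [AddCommGroup N] [Module A N] (hN : Nontrivial N)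
    (hunif : ∀ K L : Submodule A N, K ≠ ⊥ → L ≠ ⊥ → K ⊓ L ≠ ⊥)
    (F : Finset A) : (∀ e ∈ F, ∃ x : N, e • x ≠ 0) →
    ∃ c : A, (∃ x : N, c • x ≠ 0) ∧
      ∀ (T : Type u) [AddCommGroup T] [Module A T] (t : T), c • t ≠ 0 →
        ∀ e ∈ F, ∃ t' : T, e • t' ≠ 0 := by
  classical
  induction F using Finset.induction_on with
  | empty =>
    intro _
    obtain ⟨x, hx⟩ := exists_ne (0 : N)
    exact ⟨1, ⟨x, by rwa [one_smul]⟩, fun T _ _ t _ e he => absurd he (Finset.notMem_empty e)⟩
  | insert e F _ ih =>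
    intro hF
    obtain ⟨c, ⟨y0, hy0⟩, hc⟩ := ih (fun e' he' => hF e' (Finset.mem_insert_of_mem he'))
    obtain ⟨x0, hx0⟩ := hF e (Finset.mem_insert_self e F)
    have key : ∃ (a : A) (x : N), c • (a • (e • x)) ≠ 0 := by
      by_contra hcon
      push Not at hcon
      let M : Submodule A N := Submodule.span A (Set.range fun x : N => e • x)
      have hM : ∀ m ∈ M, ∀ a : A, c • (a • m) = 0 := by
        intro m hm
        induction hm using Submodule.span_induction with
        | mem y h =>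
          obtain ⟨x, rfl⟩ := h
          exact fun a => hcon a x
        | zero => intro a; rw [smul_zero, smul_zero]
        | add y z _ _ h1 h2 => intro a; rw [smul_add, smul_add, h1 a, h2 a, add_zero]
        | smul r y _ h1 => intro a; rw [smul_smul a r y]; exact h1 (a * r)
      have hcI : c ∈ M.annihilator := by
        rw [Submodule.mem_annihilator]
        intro m hm
        have := hM m hm 1
        rwa [one_smul] at this
      have h1 := ideal_kills A hreg N hunif M.annihilator (e • x0) hx0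
        (fun a ha => (Submodule.mem_annihilator.1 ha) _ (Submodule.subset_span ⟨x0, rfl⟩))
      exact hy0 (h1 c hcI y0)
    obtain ⟨a, x, hax⟩ := key
    refine ⟨c * a * e, ⟨x, by rwa [mul_smul, mul_smul]⟩, ?_⟩
    intro T _ _ t ht e' he'
    rw [mul_smul, mul_smul] at ht
    rcases Finset.mem_insert.1 he' with rfl | he'
    · refine ⟨t, fun h0 => ht ?_⟩
      rw [h0, smul_zero, smul_zero]
    · exact hc T _ ht e' he'

/-- a common refinement of finitely many idempotents acting nontrivially on a uniform module -/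
theorem exists_common_idempotent (A : Type u) [Ring A] (hreg : ∀ a : A, ∃ x, a * x * a = a)
    (N : Type u) [AddCommGroup N] [Module A N] (hN : Nontrivial N)
    (hunif : ∀ K L : Submodule A N, K ≠ ⊥ → L ≠ ⊥ → K ⊓ L ≠ ⊥)
    (F : Finset A) (hF : ∀ e ∈ F, ∃ x : N, e • x ≠ 0) :
    ∃ c : A, c * c = c ∧ (∃ x : N, c • x ≠ 0) ∧
      ∀ (T : Type u) [AddCommGroup T] [Module A T] (t : T), c • t ≠ 0 →
        ∀ e ∈ F, ∃ t' : T, e • t' ≠ 0 := by
  obtain ⟨c, ⟨y, hy⟩, hc⟩ := vk_ind A hreg N hN hunif F hF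
  obtain ⟨x, hx⟩ := hreg c
  refine ⟨x * c, ?_, ⟨y, ?_⟩, ?_⟩
  · rw [mul_assoc x c (x * c), ← mul_assoc c x c, hx]
  · intro h0
    apply hy
    calc c • y = (c * x * c) • y := by rw [hx]
      _ = c • ((x * c) • y) := by rw [smul_smul, mul_assoc]
      _ = 0 := by rw [h0, smul_zero]
  · intro T _ _ t ht e he
    refine hc T t ?_ e he
    intro h0
    apply ht
    rw [mul_smul, h0, smul_zero]

end VNR
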