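import Pool.Agent.Helper462.Vnr.Defs

namespace VNR

universe u v


/-- `C` is an essential extension of `K` -/
def Ess {A : Type u} [Ring A] {E : Type u} [AddCommGroup E] [Module A E]
    (K C : Submodule A E) : Prop :=
  K ≤ C ∧ ∀ L : Submodule A E, L ≤ C → L ≠ ⊥ → K ⊓ L ≠ ⊥

theorem ess_zorn {A : Type u} [Ring A] {E : Type u} [AddCommGroup E] [Module A E]
    (K : Submodule A E) : ∃ C, K ≤ C ∧ Maximal (fun C => C ∈ {C | Ess K C}) C := by
  apply zorn_le_nonempty₀ {C | Ess K C}
  · intro c hc hchain y hy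
    refine ⟨sSup c, ⟨(hc hy).1.trans (le_sSup hy), ?_⟩, fun z hz => le_sSup hz⟩
    intro L hL hL0
    obtain ⟨x, hxL, hx0⟩ := Submodule.exists_mem_ne_zero_of_ne_bot hL0
    obtain ⟨z, hz, hxz⟩ := (Submodule.mem_sSup_of_directed ⟨y, hy⟩ hchain.directedOn).1 (hL hxL)
    have h1 : Submodule.span A {x} ≤ z := (Submodule.span_singleton_le_iff_mem x z).2 hxz
    have h2 : Submodule.span A {x} ≠ ⊥ := by
      rw [Ne, Submodule.span_singleton_eq_bot]
      exact hx0
    have h3 := (hc hz).2 _ h1 h2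
    intro h4
    apply h3
    rw [eq_bot_iff, ← h4]
    exact inf_le_inf_left K ((Submodule.span_singleton_le_iff_mem x L).2 hxL)
  · refine ⟨le_rfl, fun L hL hL0 => ?_⟩
    rwa [inf_eq_right.2 hL]

theorem disj_zorn {A : Type u} [Ring A] {E : Type u} [AddCommGroup E] [Module A E]
    (C : Submodule A E) : ∃ D, (⊥ : Submodule A E) ≤ D ∧
      Maximal (fun D => D ∈ {D | Disjoint C D}) D := by
  apply zorn_le_nonempty₀ {D | Disjoint C D}
  · intro c hc hchain y hy
    refine ⟨sSup c, ?_, fun z hz => le_sSup hz⟩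
    show Disjoint C (sSup c)
    rw [Submodule.disjoint_def]
    intro x hxC hx
    obtain ⟨z, hz, hxz⟩ := (Submodule.mem_sSup_of_directed ⟨y, hy⟩ hchain.directedOn).1 hx
    exact Submodule.disjoint_def.1 (hc hz) x hxC hxz
  · exact disjoint_bot_right

theorem ess_retract {A : Type u} [Ring A] {E : Type u} [AddCommGroup E] [Module A E]
    (hinj : Module.Injective A E) (K : Submodule A E) :
    ∃ C : Submodule A E, Ess K C ∧ ∃ p : E →ₗ[A] C, ∀ c : C, p c = c := by
  obtain ⟨C, -, hC, hCmax⟩ := ess_zorn K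
  obtain ⟨D, -, hD, hDmax⟩ := disj_zorn C
  have hdisj : ∀ x, x ∈ C → x ∈ D → x = 0 := Submodule.disjoint_def.1 hD
  have hDmax' : ∀ N : Submodule A E, Disjoint C N → D ≤ N → N ≤ D := fun N hN hle =>
    hDmax (y := N) hN hle
  have hj : Function.Injective (D.mkQ ∘ₗ C.subtype) := by
    rw [injective_iff_map_eq_zero]
    intro x hx
    have h1 : (x : E) ∈ D := by
      rw [← Submodule.ker_mkQ D, LinearMap.mem_ker]
      exact hx
    exact Subtype.ext (hdisj _ x.2 h1)
  obtain ⟨g, hg⟩ := hinj.out (D.mkQ ∘ₗ C.subtype) hj C.subtype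
  have hgC : ∀ c : E, c ∈ C → g (D.mkQ c) = c := fun c hc => hg ⟨c, hc⟩
  have hR : Ess K (LinearMap.range (g ∘ₗ D.mkQ)) := by
    refine ⟨?_, ?_⟩
    · intro x hx
      exact ⟨x, hgC x (hC.1 hx)⟩
    · intro L hL hL0
      obtain ⟨x, hxL, hx0⟩ := Submodule.exists_mem_ne_zero_of_ne_bot hL0
      obtain ⟨y, hy⟩ := hL hxL
      have hCL : ¬ Disjoint C (L.comap (g ∘ₗ D.mkQ)) := by
        intro hdis
        have h1 : D ≤ L.comap (g ∘ₗ D.mkQ) := by
          intro z hz
          have h2 : D.mkQ z = 0 := by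
            rw [← LinearMap.mem_ker, Submodule.ker_mkQ]; exact hz
          show g (D.mkQ z) ∈ L
          rw [h2, map_zero]
          exact L.zero_mem
        have h3 := hDmax' _ hdis h1
        have h4 : y ∈ D := h3 (show g (D.mkQ y) ∈ L by
          have : g (D.mkQ y) = x := hy
          rw [this]; exact hxL)
        apply hx0
        rw [← hy]
        show g (D.mkQ y) = 0
        have h2 : D.mkQ y = 0 := by
          rw [← LinearMap.mem_ker, Submodule.ker_mkQ]; exact h4
        rw [h2, map_zero]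
      rw [Submodule.disjoint_def] at hCL
      push Not at hCL
      obtain ⟨z, hzC, hzL, hz0⟩ := hCL
      have hzL' : z ∈ L := by
        have : g (D.mkQ z) ∈ L := hzL
        rwa [hgC z hzC] at this
      have h5 : C ⊓ L ≠ ⊥ := fun h => hz0 (by
        have : z ∈ C ⊓ L := ⟨hzC, hzL'⟩
        rw [h] at this
        exact (Submodule.mem_bot A).1 this)
      have h6 := hC.2 (C ⊓ L) inf_le_left h5
      intro h7
      apply h6
      rw [eq_bot_iff, ← h7]
      exact inf_le_inf_left K inf_le_right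
  have hRC : LinearMap.range (g ∘ₗ D.mkQ) ≤ C :=
    hCmax (y := LinearMap.range (g ∘ₗ D.mkQ)) hR (fun c hc => ⟨c, hgC c hc⟩)
  refine ⟨C, hC, LinearMap.codRestrict C (g ∘ₗ D.mkQ) (fun x => hRC ⟨x, rfl⟩), fun c => ?_⟩
  apply Subtype.ext
  exact hgC c c.2

theorem uniform_of_indec_injective (A : Type u) [Ring A] (N : Type u) [AddCommGroup N]
    [Module A N] (hinj : Module.Injective A N) (hN : IsIndec A N) :
    ∀ K L : Submodule A N, K ≠ ⊥ → L ≠ ⊥ → K ⊓ L ≠ ⊥ := by
  intro K L hK hL
  obtain ⟨C, hC, p, hp⟩ := ess_retract hinj K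
  have hcompl : IsCompl C (LinearMap.ker p) := LinearMap.isCompl_of_proj hp
  rcases hN.2 C (LinearMap.ker p) hcompl with h | h
  · exact absurd (eq_bot_iff.2 (h ▸ hC.1)) hK
  · have hT : C = ⊤ := by
      rw [h] at hcompl
      simpa using hcompl.sup_eq_top
    exact hC.2 L (hT ▸ le_top) hL

theorem exists_hull_of_simple (A : Type u) [Ring A] (T : Type u) [AddCommGroup T] [Module A T]
    [IsSimpleModule A T] :
    ∃ (E : Type u) (_ : AddCommGroup E) (_ : Module A E) (f : T →ₗ[A] E),
      Module.Injective A E ∧ IsIndec A E ∧ Function.Injective f ∧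
        ∀ K : Submodule A E, K ≠ ⊥ → LinearMap.range f ≤ K := by
  have hTn : Nontrivial T := IsSimpleModule.nontrivial A T
  obtain ⟨E0, hE1, hE2, f0, hinj, hf0⟩ : ∃ (E : Type u) (_ : AddCommGroup E) (_ : Module A E)
      (f : T →ₗ[A] E), Module.Injective A E ∧ Function.Injective f := by
    obtain ⟨P⟩ := CategoryTheory.EnoughInjectives.presentation (ModuleCat.of A T)
    have hP := P.injective
    have hm := P.mono
    refine ⟨P.J, inferInstance, inferInstance, P.f.hom, ?_, ?_⟩
    · exact Module.injective_module_of_injective_object A P.J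
    · exact (ModuleCat.mono_iff_injective P.f).1 hm
  obtain ⟨C, hC, p, hp⟩ := ess_retract hinj (LinearMap.range f0)
  have hCinj : Module.Injective A C := by
    constructor
    intro X Y _ _ _ _ f hf g
    obtain ⟨h, hh⟩ := hinj.out f hf (C.subtype ∘ₗ g)
    refine ⟨p ∘ₗ h, fun x => ?_⟩
    show p (h (f x)) = g x
    rw [hh x]
    exact hp (g x)
  let f : T →ₗ[A] C := LinearMap.codRestrict C f0 (fun t => hC.1 ⟨t, rfl⟩)
  have hf : Function.Injective f := by
    intro s t hst
    apply hf0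
    exact congrArg Subtype.val hst
  have hK : ∀ K : Submodule A C, K ≠ ⊥ → LinearMap.range f ≤ K := by
    intro K hK0
    have h1 : K.map C.subtype ≤ C := by
      rintro _ ⟨x, -, rfl⟩
      exact x.2
    have h2 : K.map C.subtype ≠ ⊥ := by
      intro h
      apply hK0
      rw [eq_bot_iff]
      intro x hx
      have h9 : (x : E0) ∈ K.map C.subtype := ⟨x, hx, rfl⟩
      rw [h, Submodule.mem_bot] at h9
      rw [Submodule.mem_bot]
      exact Subtype.ext h9
    have h3 := hC.2 _ h1 h2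
    have h4 : (K.map C.subtype).comap f0 ≠ ⊥ := by
      intro h
      apply h3
      rw [eq_bot_iff]
      rintro x ⟨⟨t, rfl⟩, hx⟩
      have h5 : t ∈ (K.map C.subtype).comap f0 := hx
      rw [h, Submodule.mem_bot] at h5
      rw [h5, map_zero]
      exact Submodule.zero_mem _
    have h6 : (K.map C.subtype).comap f0 = ⊤ := (eq_bot_or_eq_top _).resolve_left h4
    rintro _ ⟨t, rfl⟩
    have h7 : t ∈ (K.map C.subtype).comap f0 := by rw [h6]; trivial
    obtain ⟨x, hx, hxt⟩ := h7
    have : f t = x := Subtype.ext hxt.symm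
    rw [this]
    exact hx
  refine ⟨C, inferInstance, inferInstance, f, hCinj, ⟨?_, ?_⟩, hf, hK⟩
  · exact hf.nontrivial
  · intro N₁ N₂ hcompl
    by_contra hcon
    rw [not_or] at hcon
    obtain ⟨t, ht⟩ := exists_ne (0 : T)
    apply ht
    apply hf
    rw [map_zero]
    exact Submodule.disjoint_def.1 hcompl.disjoint (f t) (hK N₁ hcon.1 ⟨t, rfl⟩)
      (hK N₂ hcon.2 ⟨t, rfl⟩)

end VNR
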