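import Pool.Agent.Helper462.Vnr.Defs

namespace VNR

open Cb

universe u v


theorem exists_isolated_of_cb_empty {X : Type u} [TopologicalSpace X] (α : Ordinal.{v})
    (h : cb X α = ∅) (S : Set X) (hS : S.Nonempty) :
    ∃ x ∈ S, ∃ U : Set X, IsOpen U ∧ x ∈ U ∧ ∀ y ∈ S, y ∈ U → y = x := by
  by_contra hcon
  push Not at hcon
  have key : ∀ β : Ordinal.{v}, S ⊆ cb X β := by
    intro β
    induction β using Ordinal.limitRecOn with
    | zero =>
      intro x _
      simp only [cb, Ordinal.limitRecOn_zero, Set.mem_univ]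
    | add_one β ih =>
      intro x hx
      have e : cb X (β + 1) = derive (cb X β) := by
        simp only [cb, Ordinal.limitRecOn_add_one]
      rw [e]
      refine ⟨ih hx, fun U hU hxU => ?_⟩
      obtain ⟨y, hy, hyU, hne⟩ := hcon x hx U hU hxU
      exact ⟨y, hyU, ih hy, hne⟩
    | limit o ho ih =>
      intro x hx
      have e : cb X o = {x | ∀ (β : Ordinal.{v}) (_ : β < o), x ∈ cb X β} := by
        simp only [cb]
        rw [Ordinal.limitRecOn_limit _ _ _ _ ho]
      rw [e]
      intro β hβ
      exact ih β hβ hx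
  obtain ⟨x, hx⟩ := hS
  have := key α hx
  rw [h] at this
  exact this

end VNR
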