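import Pool.Agent.Helper462.Vnr.V1
import Pool.Agent.Helper462.Vnr.V2
import Pool.Agent.Helper462.Vnr.V3
import Pool.Agent.Helper462.Vnr.V4
import Pool.Agent.Helper462.Vnr.V5

/-!
# Scattered spectrum implies semiartinian, for regular rings generated over the centre by fewer
than continuum elements
-/

namespace VNR

universe u v

theorem simple_quotient {A : Type u} [Ring A] (m : Ideal A) (hm : m.IsMaximal) :
    IsSimpleModule A (A ⧸ m) := by
  rw [isSimpleModule_iff_isCoatom]
  exact Ideal.isMaximal_def.1 hm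

theorem mk_one_ne {A : Type u} [Ring A] (m : Ideal A) (hm : m.IsMaximal) :
    (Submodule.Quotient.mk (1 : A) : A ⧸ m) ≠ 0 := by
  intro h
  rw [Submodule.Quotient.mk_eq_zero] at h
  exact hm.ne_top ((Ideal.eq_top_iff_one m).2 h)

/-- there are two non-isomorphic simple modules -/
theorem exists_two_simple (A : Type u) [Ring A] (hreg : ∀ a : A, ∃ x, a * x * a = a)
    (G : Set A) (hG : Cardinal.mk G < Cardinal.continuum)
    (hspan : Submodule.span (Subring.center A) G = ⊤)
    (J : Ideal A) [J.IsTwoSided]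
    (hJ : ∀ S : Submodule A (A ⧸ J), ¬ IsSimpleModule A S)
    (e : A) (he : e * e = e) (heJ : e ∉ J) :
    ∃ m₁ m₂ : Ideal A, m₁.IsMaximal ∧ m₂.IsMaximal ∧ J ≤ m₁ ∧ J ≤ m₂ ∧
      e • (Submodule.Quotient.mk (1 : A) : A ⧸ m₁) = Submodule.Quotient.mk (1 : A) ∧
      e • (Submodule.Quotient.mk (1 : A) : A ⧸ m₂) = Submodule.Quotient.mk (1 : A) ∧
      ¬ Nonempty ((A ⧸ m₁) ≃ₗ[A] (A ⧸ m₂)) := by
  obtain ⟨ε, hε0, hε⟩ := exists_idempotent_tree A hreg J hJ e he heJ
  choose m hm hJm hfix using fun b => exists_branch_module A J ε hε b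
  by_contra hcon
  push Not at hcon
  have hfix0 : ∀ b, e • (Submodule.Quotient.mk (1 : A) : A ⧸ m b) = Submodule.Quotient.mk (1 : A) := by
    intro b
    have := hfix b 0
    rw [pre, hε0] at this
    exact this
  let b0 : ℕ → Bool := fun _ => true
  have hiso : ∀ b, Nonempty ((A ⧸ m b) ≃ₗ[A] (A ⧸ m b0)) := by
    intro b
    exact hcon (m b) (m b0) (hm b) (hm b0) (hJm b) (hJm b0) (hfix0 b) (hfix0 b0)
  let g : ∀ b, (A ⧸ m b) ≃ₗ[A] (A ⧸ m b0) := fun b => Classical.choice (hiso b)
  have := simple_quotient (m b0) (hm b0)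
  refine no_branches A G hG hspan (A ⧸ m b0) ε (fun s i => ((hε s).2.2 i).2.2.2)
    (fun s i => ((hε s).2.2 i).1) (fun s i => ((hε s).2.2 i).2.1)
    (fun b => g b (Submodule.Quotient.mk (1 : A))) ?_ ?_
  · intro b h
    have h1 : (Submodule.Quotient.mk (1 : A) : A ⧸ m b) = 0 := by
      apply (g b).injective
      rw [map_zero]
      exact h
    exact mk_one_ne (m b) (hm b) h1
  · intro b n
    rw [← map_smul, hfix b n]

theorem injPoint_eq {A : Type u} [Ring A] {N N' : IndecInjective A}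
    (h : injPoint N = injPoint N') : Nonempty (N.carrier ≃ₗ[A] N'.carrier) := Quotient.exact h

theorem mem_injBasic {A : Type u} [Ring A] (N : IndecInjective A) (e : A) :
    injPoint N ∈ injBasic e ↔ ∃ v : N.carrier, e • v ≠ 0 := by
  constructor
  · rintro ⟨N', hN', v, hv⟩
    obtain ⟨g⟩ := injPoint_eq hN'
    refine ⟨g v, ?_⟩
    rw [← map_smul]
    intro h
    exact hv (g.injective (by rw [h, map_zero]))
  · intro h
    exact ⟨N, rfl, h⟩

/-- the hull of a simple module killed by an ideal -/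
theorem exists_hull (A : Type u) [Ring A] (hreg : ∀ a : A, ∃ x, a * x * a = a)
    (J : Ideal A) [J.IsTwoSided] (m : Ideal A) (hm : m.IsMaximal) (hJm : J ≤ m) :
    ∃ (N : IndecInjective A) (f : (A ⧸ m) →ₗ[A] N.carrier), Function.Injective f ∧
      (∀ K : Submodule A N.carrier, K ≠ ⊥ → LinearMap.range f ≤ K) ∧
      ∀ a ∈ J, ∀ v : N.carrier, a • v = 0 := by
  have := simple_quotient m hm
  obtain ⟨E, _, _, f, hE, hEi, hf, hK⟩ := exists_hull_of_simple A (A ⧸ m)
  refine ⟨⟨E, hE, hEi⟩, f, hf, hK, ?_⟩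
  refine ideal_kills A hreg E (uniform_of_indec_injective A E hE hEi) J
    (f (Submodule.Quotient.mk (1 : A))) ?_ ?_
  · intro h
    exact mk_one_ne m hm (hf (by rw [h, map_zero]))
  · intro a ha
    rw [← map_smul]
    have h1 : a • (Submodule.Quotient.mk (1 : A) : A ⧸ m) = 0 := by
      rw [← Submodule.Quotient.mk_smul, Submodule.Quotient.mk_eq_zero, smul_eq_mul, mul_one]
      exact hJm ha
    rw [h1, map_zero]

theorem socle_iso {A : Type u} [Ring A] {T T' E E' : Type u} [AddCommGroup T] [Module A T]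
    [AddCommGroup T'] [Module A T'] [AddCommGroup E] [Module A E] [AddCommGroup E'] [Module A E']
    [Nontrivial T] [Nontrivial T']
    (f : T →ₗ[A] E) (hf : Function.Injective f)
    (hK : ∀ K : Submodule A E, K ≠ ⊥ → LinearMap.range f ≤ K)
    (f' : T' →ₗ[A] E') (hf' : Function.Injective f')
    (hK' : ∀ K : Submodule A E', K ≠ ⊥ → LinearMap.range f' ≤ K)
    (g : E ≃ₗ[A] E') : Nonempty (T ≃ₗ[A] T') := by
  have hne : LinearMap.range f ≠ ⊥ := by
    intro h
    obtain ⟨t, ht⟩ := exists_ne (0 : T)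
    apply ht
    apply hf
    rw [map_zero]
    have : f t ∈ LinearMap.range f := ⟨t, rfl⟩
    rw [h, Submodule.mem_bot] at this
    exact this
  have hne' : LinearMap.range f' ≠ ⊥ := by
    intro h
    obtain ⟨t, ht⟩ := exists_ne (0 : T')
    apply ht
    apply hf'
    rw [map_zero]
    have : f' t ∈ LinearMap.range f' := ⟨t, rfl⟩
    rw [h, Submodule.mem_bot] at this
    exact this
  have h1 : LinearMap.range f' ≤ (LinearMap.range f).map (g : E →ₗ[A] E') := by
    apply hK'
    intro h
    apply hne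
    rw [Submodule.map_eq_bot_iff] at h
    exact h
  have h2 : LinearMap.range f ≤ (LinearMap.range f').map (g.symm : E' →ₗ[A] E) := by
    apply hK
    intro h
    apply hne'
    rw [Submodule.map_eq_bot_iff] at h
    exact h
  have h3 : (LinearMap.range f).map (g : E →ₗ[A] E') = LinearMap.range f' := by
    refine le_antisymm ?_ h1
    rintro _ ⟨y, hy, rfl⟩
    obtain ⟨z, hz, hz2⟩ := h2 hy
    rw [← hz2]
    simpa using hz
  let e1 : T ≃ₗ[A] LinearMap.range f := LinearEquiv.ofInjective f hf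
  let e2 : T' ≃ₗ[A] LinearMap.range f' := LinearEquiv.ofInjective f' hf'
  let e3 : LinearMap.range f ≃ₗ[A] (LinearMap.range f).map (g : E →ₗ[A] E') :=
    g.submoduleMap (LinearMap.range f)
  exact ⟨e1.trans (e3.trans ((LinearEquiv.ofEq _ _ h3).trans e2.symm))⟩

/-- the annihilator of a module without simple submodules is a socle-free ideal -/
theorem annihilator_socle_free {A : Type u} [Ring A] (M : Type u) [AddCommGroup M] [Module A M]
    (hM : ∀ S : Submodule A M, ¬ IsSimpleModule A S)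
    (S : Submodule A (A ⧸ Module.annihilator A M)) : ¬ IsSimpleModule A S := by
  intro hS
  have := hS.nontrivial
  obtain ⟨s, hs⟩ := exists_ne (0 : S)
  obtain ⟨a, ha⟩ := Submodule.Quotient.mk_surjective _ (s : A ⧸ Module.annihilator A M)
  have h1 : a ∉ Module.annihilator A M := by
    intro h
    apply hs
    apply Subtype.ext
    rw [← ha]
    exact (Submodule.Quotient.mk_eq_zero _).2 h
  rw [Module.mem_annihilator] at h1
  push Not at h1
  obtain ⟨x, hx⟩ := h1
  let φ : (A ⧸ Module.annihilator A M) →ₗ[A] M :=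
    (Module.annihilator A M).liftQ (LinearMap.toSpanSingleton A M x) (by
      intro r hr
      rw [LinearMap.mem_ker, LinearMap.toSpanSingleton_apply]
      exact Module.mem_annihilator.1 hr x)
  have hφ : φ s ≠ 0 := by
    rw [← ha]
    change (Module.annihilator A M).liftQ (LinearMap.toSpanSingleton A M x) _
      (Submodule.Quotient.mk a) ≠ 0
    rw [Submodule.liftQ_apply, LinearMap.toSpanSingleton_apply]
    exact hx
  have hinj : Function.Injective (φ ∘ₗ S.subtype) := by
    rcases LinearMap.injective_or_eq_zero (φ ∘ₗ S.subtype) with h | h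
    · exact h
    · exfalso
      apply hφ
      exact LinearMap.congr_fun h s
  exact hM (LinearMap.range (φ ∘ₗ S.subtype))
    (IsSimpleModule.congr (LinearEquiv.ofInjective (φ ∘ₗ S.subtype) hinj).symm)

theorem semiartinian_of_scattered (A : Type u) [Ring A] (hreg : ∀ a : A, ∃ x, a * x * a = a)
    (G : Set A) (hG : Cardinal.mk G < Cardinal.continuum)
    (hspan : Submodule.span (Subring.center A) G = ⊤)
    (α : Ordinal.{v}) (hα : Cb.cb (InjSpectrum A) α = ∅)
    (M : Type u) [AddCommGroup M] [Module A M] (hM : Nontrivial M) :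
    ∃ S : Submodule A M, IsSimpleModule A S := by
  classical
  by_contra hno
  push Not at hno
  obtain ⟨J, hJdef⟩ : ∃ J : Ideal A, J = Module.annihilator A M := ⟨_, rfl⟩
  have hJt : J.IsTwoSided := by rw [hJdef]; infer_instance
  have hJ : ∀ S : Submodule A (A ⧸ J), ¬ IsSimpleModule A S := by
    rw [hJdef]
    exact annihilator_socle_free M hno
  have hJtop : J ≠ ⊤ := by
    intro h
    obtain ⟨x, hx⟩ := exists_ne (0 : M)
    apply hx
    have h1 : (1 : A) ∈ J := by rw [h]; trivial
    rw [hJdef, Module.mem_annihilator] at h1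
    simpa using h1 x
  let X : Set (InjSpectrum A) :=
    {x | ∃ N : IndecInjective A, injPoint N = x ∧ ∀ a ∈ J, ∀ v : N.carrier, a • v = 0}
  have hX : X.Nonempty := by
    obtain ⟨m, hm, hJm⟩ := Ideal.exists_le_maximal J hJtop
    obtain ⟨N, f, -, -, h⟩ := exists_hull A hreg J m hm hJm
    exact ⟨injPoint N, N, rfl, h⟩
  obtain ⟨x, ⟨N, rfl, hNJ⟩, U, hU, hxU, huniq⟩ := exists_isolated_of_cb_empty α hα X hX
  obtain ⟨V, ⟨f, ⟨hf, hfS⟩, rfl⟩, hNV, hV⟩ :=
    (TopologicalSpace.isTopologicalBasis_of_subbasis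
      (α := InjSpectrum A) rfl).exists_subset_of_mem_open hxU hU
  have hfe : ∀ S ∈ f, ∃ e : A, S = injBasic e := fun S hS => by
    obtain ⟨e, -, he⟩ := hfS hS
    exact ⟨e, he⟩
  choose! E hE using hfe
  let F : Finset A := hf.toFinset.image E
  have hunif := uniform_of_indec_injective A N.carrier N.injective N.indecomposable
  obtain ⟨c, hc, ⟨x0, hx0⟩, hcT⟩ := exists_common_idempotent A hreg N.carrier
    N.indecomposable.1 hunif F (by
      intro e he
      obtain ⟨S, hS, rfl⟩ := Finset.mem_image.1 he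
      rw [Set.Finite.mem_toFinset] at hS
      have h1 : injPoint N ∈ S := hNV S hS
      rw [hE S hS, mem_injBasic] at h1
      exact h1)
  have hcJ : c ∉ J := fun h => hx0 (hNJ c h x0)
  obtain ⟨m₁, m₂, hm₁, hm₂, hJ₁, hJ₂, he₁, he₂, hne⟩ :=
    exists_two_simple A hreg G hG hspan J hJ c hc hcJ
  have key : ∀ m : Ideal A, m.IsMaximal → J ≤ m →
      c • (Submodule.Quotient.mk (1 : A) : A ⧸ m) = Submodule.Quotient.mk (1 : A) →
      ∃ f : (A ⧸ m) →ₗ[A] N.carrier, Function.Injective f ∧
        (∀ K : Submodule A N.carrier, K ≠ ⊥ → LinearMap.range f ≤ K) := by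
    intro m hm hJm hcm
    obtain ⟨N', g, hg, hK, hJN⟩ := exists_hull A hreg J m hm hJm
    have h1 : injPoint N' ∈ U := by
      apply hV
      intro S hS
      rw [hE S hS, mem_injBasic]
      refine hcT N'.carrier (g (Submodule.Quotient.mk (1 : A))) ?_ (E S)
        (Finset.mem_image.2 ⟨S, (Set.Finite.mem_toFinset hf).2 hS, rfl⟩)
      rw [← map_smul, hcm]
      intro h
      exact mk_one_ne m hm (hg (by rw [h, map_zero]))
    obtain ⟨e⟩ := injPoint_eq (huniq (injPoint N') ⟨N', rfl, hJN⟩ h1)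
    refine ⟨(e : N'.carrier →ₗ[A] N.carrier) ∘ₗ g, e.injective.comp hg, ?_⟩
    intro K hK0
    have h2 : LinearMap.range g ≤ K.comap (e : N'.carrier →ₗ[A] N.carrier) := by
      apply hK
      intro h
      apply hK0
      rw [eq_bot_iff]
      intro y hy
      have h3 : e.symm y ∈ K.comap (e : N'.carrier →ₗ[A] N.carrier) := by
        simpa using hy
      rw [h, Submodule.mem_bot] at h3
      rw [Submodule.mem_bot]
      simpa using h3
    rintro _ ⟨t, rfl⟩
    exact h2 ⟨t, rfl⟩
  obtain ⟨f₁, hf₁, hK₁⟩ := key m₁ hm₁ hJ₁ he₁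
  obtain ⟨f₂, hf₂, hK₂⟩ := key m₂ hm₂ hJ₂ he₂
  have := (simple_quotient m₁ hm₁).nontrivial
  have := (simple_quotient m₂ hm₂).nontrivial
  exact hne (socle_iso f₁ hf₁ hK₁ f₂ hf₂ hK₂ (LinearEquiv.refl A N.carrier))

end VNR
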