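import Pool.Agent.Helper462.Vnr.Main

/-!
# Passage to the opposite ring
-/

namespace VNR

universe u v

theorem reg_op {R : Type u} [Ring R] (hreg : ∀ a : R, ∃ x, a * x * a = a) :
    ∀ a : Rᵐᵒᵖ, ∃ x, a * x * a = a := by
  intro a
  obtain ⟨x, hx⟩ := hreg a.unop
  refine ⟨MulOpposite.op x, ?_⟩
  apply MulOpposite.unop_injective
  simp only [MulOpposite.unop_mul, MulOpposite.unop_op]
  rw [← mul_assoc]
  exact hx

theorem span_op {R : Type u} [Ring R] (G : Set R)
    (hspan : Submodule.span (Subring.center R) G = ⊤) :
    Submodule.span (Subring.center Rᵐᵒᵖ) (MulOpposite.op '' G) = ⊤ := by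
  rw [eq_top_iff]
  rintro a -
  have h1 : a.unop ∈ Submodule.span (Subring.center R) G := by rw [hspan]; trivial
  have key : ∀ x : R, x ∈ Submodule.span (Subring.center R) G →
      MulOpposite.op x ∈ Submodule.span (Subring.center Rᵐᵒᵖ) (MulOpposite.op '' G) := by
    intro x hx
    induction hx using Submodule.span_induction with
    | mem x h => exact Submodule.subset_span ⟨x, h, rfl⟩
    | zero => simp
    | add x y _ _ hx hy =>
      rw [MulOpposite.op_add]
      exact Submodule.add_mem _ hx hy
    | smul z x _ hx =>
      have hz : MulOpposite.op (z : R) ∈ Subring.center Rᵐᵒᵖ := by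
        rw [Subring.mem_center_iff]
        intro g
        apply MulOpposite.unop_injective
        simp only [MulOpposite.unop_mul, MulOpposite.unop_op]
        exact (Subring.mem_center_iff.1 z.2 g.unop).symm
      have h2 : MulOpposite.op (z • x) = (⟨_, hz⟩ : Subring.center Rᵐᵒᵖ) • MulOpposite.op x := by
        apply MulOpposite.unop_injective
        change (z : R) * x = x * (z : R)
        exact (Subring.mem_center_iff.1 z.2 x).symm
      rw [h2]
      exact Submodule.smul_mem _ _ hx
  exact key a.unop h1

/-- the hypotheses for the opposite ring -/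
theorem exists_span_op {R : Type u} [Ring R] (G : Set R)
    (hG : Cardinal.mk G < Cardinal.continuum)
    (hgen : Algebra.adjoin (Subring.center R) G = ⊤) :
    ∃ G' : Set Rᵐᵒᵖ, Cardinal.mk G' < Cardinal.continuum ∧
      Submodule.span (Subring.center Rᵐᵒᵖ) G' = ⊤ := by
  obtain ⟨G', hG', hspan⟩ := exists_span_of_adjoin R G hG hgen
  exact ⟨MulOpposite.op '' G', lt_of_le_of_lt Cardinal.mk_image_le hG', span_op G' hspan⟩

end VNR
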