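import Pool.Agent.Helper462.Cb.RankDefs

/-!
# The spectrum of indecomposable injective modules
-/

namespace VNR

universe u v

/-- initial segments of a branch, the last entry first -/
def pre (b : ℕ → Bool) : ℕ → List Bool
  | 0 => []
  | n + 1 => b n :: pre b n

/-- a nonzero module which is not the direct sum of two nonzero submodules -/
def IsIndec (A : Type u) [Ring A] (N : Type u) [AddCommGroup N] [Module A N] : Prop :=
  Nontrivial N ∧ ∀ N₁ N₂ : Submodule A N, IsCompl N₁ N₂ → N₁ = ⊥ ∨ N₂ = ⊥

/-- an indecomposable injective `A`-module -/
structure IndecInjective (A : Type u) [Ring A] where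
  /-- the underlying type -/
  carrier : Type u
  [grp : AddCommGroup carrier]
  [mod : Module A carrier]
  injective : Module.Injective A carrier
  indecomposable : IsIndec A carrier

attribute [instance] IndecInjective.grp IndecInjective.mod

/-- isomorphism of indecomposable injective modules -/
instance injSetoid (A : Type u) [Ring A] : Setoid (IndecInjective A) where
  r N N' := Nonempty (N.carrier ≃ₗ[A] N'.carrier)
  iseqv :=
    { refl := fun N => ⟨LinearEquiv.refl A N.carrier⟩
      symm := fun ⟨e⟩ => ⟨e.symm⟩
      trans := fun ⟨e⟩ ⟨e'⟩ => ⟨e.trans e'⟩ }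

/-- the isomorphism classes of indecomposable injective `A`-modules -/
def InjSpectrum (A : Type u) [Ring A] : Type (u + 1) := Quotient (injSetoid A)

/-- the isomorphism class of `N` -/
def injPoint {A : Type u} [Ring A] (N : IndecInjective A) : InjSpectrum A :=
  Quotient.mk (injSetoid A) N

/-- the basic open set `{N : e N ≠ 0}` -/
def injBasic {A : Type u} [Ring A] (e : A) : Set (InjSpectrum A) :=
  {x | ∃ N : IndecInjective A, injPoint N = x ∧ ∃ v : N.carrier, e • v ≠ 0}

/-- the topology generated by the sets `{N : e N ≠ 0}`, `e` idempotent -/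
instance injTopology (A : Type u) [Ring A] : TopologicalSpace (InjSpectrum A) :=
  TopologicalSpace.generateFrom {S | ∃ e : A, e * e = e ∧ S = injBasic e}

end VNR
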