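import Pool.Agent.Helper462.Vnr.Defs

/-!
# Primitive idempotents modulo an ideal
-/

namespace VNR

universe u v

/-- `f` is an idempotent, not in `J`, and `f (A/J) f` is a division ring -/
def IsPrim {A : Type u} [Ring A] (J : Set A) (f : A) : Prop :=
  f * f = f ∧ f ∉ J ∧ ∀ x : A, f * x * f ∉ J → ∃ y : A, f * y * f * (f * x * f) - f ∈ J ∧
    f * x * f * (f * y * f) - f ∈ J

end VNR
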