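import Pool.Agent.Helper462.Vnr.Defs2

namespace VNR

universe u v


theorem simple_of_isPrim (A : Type u) [Ring A] (hreg : ∀ a : A, ∃ x, a * x * a = a)
    (J : Ideal A) [J.IsTwoSided] (f : A) (hf : IsPrim (J : Set A) f) :
    IsSimpleModule A (Submodule.map (Submodule.mkQ J) (Submodule.span A {f})) := by
  obtain ⟨hff, hfJ, hprim⟩ := hf
  have hfJ' : f ∉ J := hfJ
  have hmemS : ∀ r : A, Submodule.mkQ J (r * f) ∈
      Submodule.map (Submodule.mkQ J) (Submodule.span A {f}) := fun r =>
    ⟨r * f, Submodule.mem_span_singleton.mpr ⟨r, rfl⟩, rfl⟩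
  rw [isSimpleModule_iff_toSpanSingleton_surjective]
  constructor
  · refine ⟨⟨⟨Submodule.mkQ J (1 * f), hmemS 1⟩, 0, ?_⟩⟩
    intro h0
    have h1 : Submodule.mkQ J (1 * f) = 0 := congrArg Subtype.val h0
    rw [one_mul, Submodule.mkQ_apply, Submodule.Quotient.mk_eq_zero] at h1
    exact hfJ' h1
  · rintro ⟨m, b0, hb0, rfl⟩ hm
    obtain ⟨r, rfl⟩ := Submodule.mem_span_singleton.mp hb0
    have hb : r * f ∉ J := by
      intro h
      apply hm
      apply Subtype.ext
      change Submodule.mkQ J (r • f) = 0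
      rw [Submodule.mkQ_apply, Submodule.Quotient.mk_eq_zero]
      exact h
    obtain ⟨x, hx⟩ := hreg (r * f)
    have hnot : f * (x * r) * f ∉ (J : Set A) := by
      intro h
      apply hb
      have h1 : r * f = (r * f) * (f * (x * r) * f) := by
        calc r * f = r * f * x * (r * f) := hx.symm
          _ = r * (f * f) * x * (r * f) := by rw [hff]
          _ = (r * f) * (f * (x * r) * f) := by noncomm_ring
      rw [h1]
      exact J.mul_mem_left _ h
    obtain ⟨y, hy, _⟩ := hprim (x * r) hnot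
    rintro ⟨n, b1, hb1, rfl⟩
    obtain ⟨r', rfl⟩ := Submodule.mem_span_singleton.mp hb1
    refine ⟨r' * (f * y * f * f * x), ?_⟩
    apply Subtype.ext
    change (r' * (f * y * f * f * x)) • Submodule.mkQ J (r • f) = Submodule.mkQ J (r' • f)
    rw [← map_smul, ← sub_eq_zero, ← map_sub, Submodule.mkQ_apply, Submodule.Quotient.mk_eq_zero]
    have h2 : (r' * (f * y * f * f * x)) • (r • f) - r' • f
        = r' * (f * y * f * (f * (x * r) * f) - f) := by
      simp only [smul_eq_mul]
      noncomm_ring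
    rw [h2]
    exact J.mul_mem_left _ hy

theorem isPrim_of_simple (A : Type u) [Ring A] (J : Ideal A) [J.IsTwoSided] (f : A)
    (hff : f * f = f)
    (hs : IsSimpleModule A (Submodule.map (Submodule.mkQ J) (Submodule.span A {f}))) :
    IsPrim (J : Set A) f := by
  have hmemS : ∀ r : A, Submodule.mkQ J (r * f) ∈
      Submodule.map (Submodule.mkQ J) (Submodule.span A {f}) := fun r =>
    ⟨r * f, Submodule.mem_span_singleton.mpr ⟨r, rfl⟩, rfl⟩
  rw [isSimpleModule_iff_toSpanSingleton_surjective] at hs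
  obtain ⟨hnt, hsurj⟩ := hs
  have hfJ : f ∉ J := by
    intro hfJ
    obtain ⟨⟨s, b0, hb0, rfl⟩, ⟨s', b1, hb1, rfl⟩, hne⟩ := hnt.exists_pair_ne
    apply hne
    obtain ⟨r, rfl⟩ := Submodule.mem_span_singleton.mp hb0
    obtain ⟨r', rfl⟩ := Submodule.mem_span_singleton.mp hb1
    apply Subtype.ext
    change Submodule.mkQ J (r • f) = Submodule.mkQ J (r' • f)
    have h1 : Submodule.mkQ J (r • f) = 0 := by
      rw [Submodule.mkQ_apply, Submodule.Quotient.mk_eq_zero]
      exact J.mul_mem_left _ hfJ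
    have h2 : Submodule.mkQ J (r' • f) = 0 := by
      rw [Submodule.mkQ_apply, Submodule.Quotient.mk_eq_zero]
      exact J.mul_mem_left _ hfJ
    rw [h1, h2]
  have key : ∀ x : A, f * x * f ∉ J → ∃ y : A, f * y * f * (f * x * f) - f ∈ J := by
    intro x hx
    have hne : (⟨Submodule.mkQ J (f * x * f), hmemS (f * x)⟩ :
        Submodule.map (Submodule.mkQ J) (Submodule.span A {f})) ≠ 0 := by
      intro h0
      have h1 : Submodule.mkQ J (f * x * f) = 0 := congrArg Subtype.val h0
      rw [Submodule.mkQ_apply, Submodule.Quotient.mk_eq_zero] at h1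
      exact hx h1
    obtain ⟨c, hc⟩ := hsurj _ hne ⟨Submodule.mkQ J (1 * f), hmemS 1⟩
    have h1 : c • Submodule.mkQ J (f * x * f) = Submodule.mkQ J (1 * f) := congrArg Subtype.val hc
    rw [← map_smul, ← sub_eq_zero, ← map_sub, Submodule.mkQ_apply,
      Submodule.Quotient.mk_eq_zero, smul_eq_mul, one_mul] at h1
    refine ⟨c, ?_⟩
    have h2 : f * c * f * (f * x * f) - f = f * (c * (f * x * f) - f) := by
      calc f * c * f * (f * x * f) - f = f * c * (f * f) * x * f - f := by noncomm_ring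
        _ = f * c * f * x * f - f * f := by rw [hff]
        _ = f * (c * (f * x * f) - f) := by noncomm_ring
    rw [h2]
    exact J.mul_mem_left _ h1
  refine ⟨hff, hfJ, ?_⟩
  intro x hx
  obtain ⟨y, hy⟩ := key x hx
  refine ⟨y, hy, ?_⟩
  have hyJ : f * y * f ∉ J := by
    intro h
    apply hfJ
    have h1 : f * y * f * (f * x * f) ∈ J := J.mul_mem_right _ h
    have h2 := J.sub_mem h1 hy
    simpa using h2
  obtain ⟨w, hw⟩ := key y hyJ
  obtain ⟨X, hX⟩ : ∃ X, X = f * x * f := ⟨_, rfl⟩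
  obtain ⟨Y, hY⟩ : ∃ Y, Y = f * y * f := ⟨_, rfl⟩
  obtain ⟨W, hW⟩ : ∃ W, W = f * w * f := ⟨_, rfl⟩
  have hfX : f * X = X := by rw [hX, ← mul_assoc, ← mul_assoc, hff]
  have hWf : W * f = W := by rw [hW, mul_assoc, hff]
  rw [← hX, ← hY] at hy
  rw [← hY, ← hW] at hw
  rw [← hX, ← hY]
  have h3 : X - W = -(W * Y - f) * X + W * (Y * X - f) := by
    have : -(W * Y - f) * X + W * (Y * X - f) = f * X - W * f := by noncomm_ring
    rw [this, hfX, hWf]
  have h4 : X - W ∈ J := by
    rw [h3]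
    exact J.add_mem (J.mul_mem_right _ (J.neg_mem hw)) (J.mul_mem_left _ hy)
  have h5 : X * Y - f = (X - W) * Y + (W * Y - f) := by noncomm_ring
  change X * Y - f ∈ J
  rw [h5]
  exact J.add_mem (J.mul_mem_right _ h4) hw

/-- two indecomposable injective modules killed by `J` on which a primitive idempotent (modulo
`J`) acts nontrivially are isomorphic -/
theorem iso_of_simple (A : Type u) [Ring A] (J : Ideal A) [J.IsTwoSided] (f : A)
    (hff : f * f = f)
    (hs : IsSimpleModule A (Submodule.map (Submodule.mkQ J) (Submodule.span A {f})))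
    (N N' : Type u) [AddCommGroup N] [Module A N] [AddCommGroup N'] [Module A N']
    (hN : Module.Injective A N) (hNi : IsIndec A N) (hN' : Module.Injective A N')
    (hNi' : IsIndec A N')
    (hu : ∀ K L : Submodule A N, K ≠ ⊥ → L ≠ ⊥ → K ⊓ L ≠ ⊥)
    (hJ : ∀ a ∈ J, ∀ v : N, a • v = 0) (hJ' : ∀ a ∈ J, ∀ v : N', a • v = 0)
    (h : ∃ v : N, f • v ≠ 0) (h' : ∃ v : N', f • v ≠ 0) : Nonempty (N ≃ₗ[A] N') := by
  have hex : ∀ (P : Type u) [AddCommGroup P] [Module A P], (∀ a ∈ J, ∀ v : P, a • v = 0) →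
      (∃ v : P, f • v ≠ 0) → ∃ ψ : (Submodule.map (Submodule.mkQ J) (Submodule.span A {f})) →ₗ[A] P,
        ψ ≠ 0 := by
    intro P _ _ hJP ⟨v, hv⟩
    have hle : J ≤ LinearMap.ker (LinearMap.toSpanSingleton A P (f • v)) := by
      intro a ha
      rw [LinearMap.mem_ker, LinearMap.toSpanSingleton_apply]
      exact hJP a ha _
    refine ⟨(Submodule.liftQ J (LinearMap.toSpanSingleton A P (f • v)) hle).comp
      (Submodule.map (Submodule.mkQ J) (Submodule.span A {f})).subtype, ?_⟩
    intro h0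
    have h1 := LinearMap.congr_fun h0 ⟨Submodule.mkQ J f,
      ⟨f, Submodule.mem_span_singleton_self f, rfl⟩⟩
    have h2 : f • f • v = 0 := h1
    rw [smul_smul, hff] at h2
    exact hv h2
  obtain ⟨ψ, hψ⟩ := hex N hJ h
  obtain ⟨ψ', hψ'⟩ := hex N' hJ' h'
  have hinj : Function.Injective ψ := LinearMap.injective_of_ne_zero hψ
  have hinj' : Function.Injective ψ' := LinearMap.injective_of_ne_zero hψ'
  obtain ⟨G, hG⟩ := hN'.out ψ hinj ψ'
  have hker : LinearMap.ker G = ⊥ := by
    by_contra hk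
    have hr : LinearMap.range ψ ≠ ⊥ := by
      intro h0
      exact hψ (LinearMap.range_eq_bot.mp h0)
    apply hu _ _ hk hr
    rw [eq_bot_iff]
    rintro _ ⟨h1, ⟨s, rfl⟩⟩
    have h2 : G (ψ s) = 0 := h1
    rw [hG] at h2
    have h3 : s = 0 := hinj' (by rw [h2, map_zero])
    rw [h3, map_zero]
    exact Submodule.zero_mem _
  have hGinj : Function.Injective G := LinearMap.ker_eq_bot.mp hker
  obtain ⟨G', hG'⟩ := hN.out G hGinj LinearMap.id
  have hG'' : ∀ x, G' (G x) = x := hG'
  have hcompl : IsCompl (LinearMap.range G) (LinearMap.ker G') := by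
    constructor
    · rw [Submodule.disjoint_def]
      rintro _ ⟨x, rfl⟩ hx
      have h1 : G' (G x) = 0 := hx
      rw [hG''] at h1
      rw [h1, map_zero]
    · rw [codisjoint_iff, Submodule.eq_top_iff']
      intro x
      rw [Submodule.mem_sup]
      refine ⟨G (G' x), ⟨G' x, rfl⟩, x - G (G' x), ?_, by abel⟩
      rw [LinearMap.mem_ker, map_sub, hG'', sub_self]
  rcases hNi'.2 _ _ hcompl with h1 | h1
  · exfalso
    have hG0 : G = 0 := LinearMap.range_eq_bot.mp h1
    obtain ⟨v, hv⟩ := h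
    apply hv
    apply hGinj
    rw [hG0]
    rfl
  · have h2 : LinearMap.range G = ⊤ := by
      have := hcompl.sup_eq_top
      rwa [h1, sup_bot_eq] at this
    exact ⟨LinearEquiv.ofBijective G ⟨hGinj, LinearMap.range_eq_top.mp h2⟩⟩

end VNR
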