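import Pool.Agent.Helper462.Cb.TA

/-!
# Cantor-Bendixson derivatives and homeomorphisms
-/

namespace VNR

universe u v w

theorem cb_add (X : Type u) [TopologicalSpace X] (α : Ordinal.{v}) :
    Cb.cb X (α + 1) = Cb.derive (Cb.cb X α) := by
  rw [← Order.succ_eq_add_one]
  exact Cb.cb_succ X α

theorem cb_lim (X : Type u) [TopologicalSpace X] (α : Ordinal.{v}) (h : Order.IsSuccLimit α) :
    Cb.cb X α = {x | ∀ β < α, x ∈ Cb.cb X β} := by
  rw [Cb.cb_limit X α h]
  ext x
  simp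

theorem cb_homeo_mem {X : Type u} {Y : Type u} [TopologicalSpace X] [TopologicalSpace Y]
    (e : X ≃ₜ Y) (α : Ordinal.{v}) : ∀ x : X, x ∈ Cb.cb X α ↔ e x ∈ Cb.cb Y α := by
  induction α using Ordinal.limitRecOn with
  | zero =>
    intro x
    rw [Cb.cb_zero, Cb.cb_zero]
    simp
  | add_one α ih =>
    intro x
    rw [cb_add, cb_add]
    constructor
    · rintro ⟨h1, h2⟩
      refine ⟨(ih x).1 h1, fun U hU hx => ?_⟩
      obtain ⟨y, hy1, hy2, hy3⟩ := h2 (e ⁻¹' U) (hU.preimage e.continuous) hx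
      exact ⟨e y, hy1, (ih y).1 hy2, fun h => hy3 (e.injective h)⟩
    · rintro ⟨h1, h2⟩
      refine ⟨(ih x).2 h1, fun U hU hx => ?_⟩
      obtain ⟨y, hy1, hy2, hy3⟩ := h2 (e.symm ⁻¹' U) (hU.preimage e.symm.continuous)
        (by simpa using hx)
      refine ⟨e.symm y, hy1, (ih _).2 (by simpa using hy2), fun h => hy3 ?_⟩
      rw [← h]
      simp
  | limit α hα ih =>
    intro x
    rw [cb_lim _ _ hα, cb_lim _ _ hα]
    constructor
    · intro h β hβ
      exact (ih β hβ x).1 (h β hβ)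
    · intro h β hβ
      exact (ih β hβ x).2 (h β hβ)

theorem cb_homeo {X : Type u} {Y : Type u} [TopologicalSpace X] [TopologicalSpace Y] (e : X ≃ₜ Y)
    (α : Ordinal.{v}) : Cb.cb X α = ∅ ↔ Cb.cb Y α = ∅ := by
  constructor
  · intro h
    rw [Set.eq_empty_iff_forall_notMem] at h ⊢
    intro y hy
    refine h (e.symm y) ((cb_homeo_mem e α _).2 ?_)
    simpa using hy
  · intro h
    rw [Set.eq_empty_iff_forall_notMem] at h ⊢
    intro x hx
    exact h (e x) ((cb_homeo_mem e α x).1 hx)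

end VNR
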