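import Pool.Agent.Helper462.Vnr.Isolation
import Pool.Agent.Helper462.Vnr.V6
import Pool.Agent.Helper462.Vnr.V7
import Pool.Agent.Helper462.Vnr.Op

/-!
# The Cantor-Bendixson derivatives of the left and right spectra
-/

namespace VNR

universe u v

section
variable {A : Type u} [Ring A]

/-- the two-sided ideal generated by `S`, as an additive subgroup -/
def KK (S : Set A) : AddSubgroup A := AddSubgroup.closure {x | ∃ s ∈ S, ∃ a b, x = a * s * b}

theorem KK_mul_left (S : Set A) (c : A) {x : A} (hx : x ∈ KK S) : c * x ∈ KK S := by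
  induction hx using AddSubgroup.closure_induction with
  | mem x h =>
    obtain ⟨s, hs, a, b, rfl⟩ := h
    exact AddSubgroup.subset_closure ⟨s, hs, c * a, b, by noncomm_ring⟩
  | zero => rw [mul_zero]; exact (KK S).zero_mem
  | add x y _ _ hx hy => rw [mul_add]; exact (KK S).add_mem hx hy
  | neg x _ hx => rw [mul_neg]; exact (KK S).neg_mem hx

theorem KK_mul_right (S : Set A) (c : A) {x : A} (hx : x ∈ KK S) : x * c ∈ KK S := by
  induction hx using AddSubgroup.closure_induction with
  | mem x h =>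
    obtain ⟨s, hs, a, b, rfl⟩ := h
    exact AddSubgroup.subset_closure ⟨s, hs, a, b * c, by noncomm_ring⟩
  | zero => rw [zero_mul]; exact (KK S).zero_mem
  | add x y _ _ hx hy => rw [add_mul]; exact (KK S).add_mem hx hy
  | neg x _ hx => rw [neg_mul]; exact (KK S).neg_mem hx

/-- the two-sided ideal generated by `S` -/
def KI (S : Set A) : Ideal A :=
  { KK S with
    smul_mem' := fun c _ hx => KK_mul_left S c hx }

theorem mem_KI (S : Set A) (x : A) : x ∈ KI S ↔ x ∈ KK S := Iff.rfl

instance KI_twoSided (S : Set A) : (KI S).IsTwoSided := ⟨fun c hx => KK_mul_right S c hx⟩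

theorem subset_KI (S : Set A) {s : A} (hs : s ∈ S) : s ∈ KI S :=
  AddSubgroup.subset_closure ⟨s, hs, 1, 1, by simp⟩

theorem VV_KI (S : Set A) : VV (KI S : Set A) = VV S := by
  apply Set.Subset.antisymm
  · rintro _ ⟨N, rfl, h⟩
    exact ⟨N, rfl, fun a ha => h a (subset_KI S ha)⟩
  · rintro _ ⟨N, rfl, h⟩
    refine ⟨N, rfl, fun a ha => ?_⟩
    have ha' : a ∈ KK S := ha
    induction ha' using AddSubgroup.closure_induction with
    | mem x hx =>
      obtain ⟨s, hs, a, b, rfl⟩ := hx
      intro v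
      rw [mul_smul, mul_smul, h s hs, smul_zero]
    | zero => intro v; rw [zero_smul]
    | add x y hx' hy' hx hy =>
      intro v
      rw [add_smul, hx hx' v, hy hy' v, add_zero]
    | neg x hx' hx =>
      intro v
      rw [neg_smul, hx hx' v, neg_zero]

/-- the derivative of a closed set -/
theorem derive_VV (hreg : ∀ a : A, ∃ x, a * x * a = a)
    (G : Set A) (hG : Cardinal.mk G < Cardinal.continuum)
    (hspan : Submodule.span (Subring.center A) G = ⊤) (S : Set A) :
    Cb.derive (VV S) = VV (S ∪ {f | IsPrim (KI S : Set A) f}) := by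
  apply Set.Subset.antisymm
  · rintro x ⟨hx, hder⟩
    obtain ⟨N, rfl, hN⟩ := hx
    rw [mem_VV]
    rintro f (hf | hf) v
    · exact hN f hf v
    · by_contra hv
      obtain ⟨y, hy1, hy2, hy3⟩ := hder (injBasic f)
        (TopologicalSpace.isOpen_generateFrom_of_mem ⟨f, hf.1, rfl⟩)
        ((mem_injBasic N f).2 ⟨v, hv⟩)
      rw [← VV_KI] at hy2
      obtain ⟨N', rfl, hN'⟩ := hy2
      apply hy3
      obtain ⟨e⟩ := iso_of_simple A (KI S) f hf.1 (simple_of_isPrim A hreg (KI S) f hf)
        N.carrier N'.carrier N.injective N.indecomposable N'.injective N'.indecomposable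
        (uniform_of_indec_injective A N.carrier N.injective N.indecomposable)
        (by
          have h1 : injPoint N ∈ VV (KI S : Set A) := by
            rw [VV_KI]; exact (mem_VV S N).2 hN
          exact (mem_VV _ _).1 h1) hN' ⟨v, hv⟩ ((mem_injBasic N' f).1 hy1)
      exact Quotient.sound ⟨e.symm⟩
  · rintro _ ⟨N, rfl, hN⟩
    have hNS : injPoint N ∈ VV S := (mem_VV _ _).2 fun a ha => hN a (Or.inl ha)
    refine ⟨hNS, fun U hU hNU => ?_⟩
    by_contra hcon
    push Not at hcon
    obtain ⟨f, hff, hs, hf⟩ := isolation A hreg G hG hspan (KI S) N (by rw [VV_KI]; exact hNS)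
      U hU hNU (by
        intro y hy hyU
        rw [VV_KI] at hy
        exact hcon y hyU hy)
    have h1 : injPoint N ∈ injBasic f ∩ VV (KI S : Set A) := by rw [hf]; rfl
    obtain ⟨v, hv⟩ := (mem_injBasic _ _).1 h1.1
    exact hv (hN f (Or.inr (isPrim_of_simple A (KI S) f hff hs)) v)

/-- the closed set is empty iff the ideal is everything -/
theorem VV_empty (hreg : ∀ a : A, ∃ x, a * x * a = a) (S : Set A) :
    VV S = ∅ ↔ (1 : A) ∈ KK S := by
  constructor
  · intro h
    by_contra h1
    have hne : KI S ≠ ⊤ := by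
      intro htop
      apply h1
      rw [← mem_KI, htop]
      trivial
    obtain ⟨m, hm, hJm⟩ := Ideal.exists_le_maximal (KI S) hne
    obtain ⟨N, f, -, -, hN⟩ := exists_hull A hreg (KI S) m hm hJm
    have h2 : injPoint N ∈ VV (KI S : Set A) := (mem_VV _ _).2 hN
    rw [VV_KI, h] at h2
    exact h2
  · intro h
    rw [Set.eq_empty_iff_forall_notMem, ← VV_KI]
    rintro _ ⟨N, rfl, hN⟩
    have := N.indecomposable.1
    obtain ⟨v, hv⟩ := exists_ne (0 : N.carrier)
    apply hv
    have := hN 1 h v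
    rwa [one_smul] at this

theorem KK_op (S : Set A) (x : A) : MulOpposite.op x ∈ KK (MulOpposite.op '' S) ↔ x ∈ KK S := by
  constructor
  · intro h
    have key : ∀ y : Aᵐᵒᵖ, y ∈ KK (MulOpposite.op '' S) → y.unop ∈ KK S := by
      intro y hy
      induction hy using AddSubgroup.closure_induction with
      | mem y h =>
        obtain ⟨_, ⟨s, hs, rfl⟩, a, b, rfl⟩ := h
        exact AddSubgroup.subset_closure ⟨s, hs, b.unop, a.unop, by simp [mul_assoc]⟩
      | zero => exact (KK S).zero_mem
      | add x y _ _ hx hy => exact (KK S).add_mem hx hy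
      | neg x _ hx => exact (KK S).neg_mem hx
    exact key _ h
  · intro h
    induction h using AddSubgroup.closure_induction with
    | mem x h =>
      obtain ⟨s, hs, a, b, rfl⟩ := h
      exact AddSubgroup.subset_closure ⟨MulOpposite.op s, ⟨s, hs, rfl⟩, MulOpposite.op b,
        MulOpposite.op a, by simp [mul_assoc]⟩
    | zero => exact (KK (MulOpposite.op '' S)).zero_mem
    | add x y _ _ hx hy => exact (KK (MulOpposite.op '' S)).add_mem hx hy
    | neg x _ hx => exact (KK (MulOpposite.op '' S)).neg_mem hx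

theorem isPrim_op (S : Set A) (f : A) :
    IsPrim (KI (MulOpposite.op '' S) : Set Aᵐᵒᵖ) (MulOpposite.op f) ↔ IsPrim (KI S : Set A) f := by
  have h1 : ∀ x : A, MulOpposite.op x ∈ (KI (MulOpposite.op '' S) : Set Aᵐᵒᵖ) ↔
      x ∈ (KI S : Set A) := fun x => KK_op S x
  unfold IsPrim
  rw [h1]
  constructor
  · rintro ⟨h2, h3, h4⟩
    refine ⟨MulOpposite.op_injective (by simpa using h2), h3, fun x hx => ?_⟩
    obtain ⟨y, hy1, hy2⟩ := h4 (MulOpposite.op x) (by
      intro h
      apply hx
      rw [← h1]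
      simpa [mul_assoc] using h)
    refine ⟨y.unop, ?_, ?_⟩
    · rw [← h1]
      simpa [mul_assoc] using hy2
    · rw [← h1]
      simpa [mul_assoc] using hy1
  · rintro ⟨h2, h3, h4⟩
    refine ⟨by rw [← MulOpposite.op_mul, h2], h3, fun x hx => ?_⟩
    obtain ⟨y, hy1, hy2⟩ := h4 x.unop (by
      intro h
      apply hx
      rw [← h1] at h
      simpa [mul_assoc] using h)
    refine ⟨MulOpposite.op y, ?_, ?_⟩
    · rw [← h1] at hy2
      simpa [mul_assoc] using hy2
    · rw [← h1] at hy1
      simpa [mul_assoc] using hy1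

/-- the left and right Cantor-Bendixson derivatives are given by the same ideals -/
theorem exists_common_ideal (hreg : ∀ a : A, ∃ x, a * x * a = a)
    (G : Set A) (hG : Cardinal.mk G < Cardinal.continuum)
    (hspan : Submodule.span (Subring.center A) G = ⊤) (α : Ordinal.{v}) :
    ∃ S : Set A, Cb.cb (InjSpectrum A) α = VV S ∧
      Cb.cb (InjSpectrum Aᵐᵒᵖ) α = VV (MulOpposite.op '' S) := by
  classical
  induction α using Ordinal.limitRecOn with
  | zero =>
    refine ⟨∅, ?_, ?_⟩
    · rw [Cb.cb_zero]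
      symm
      rw [Set.eq_univ_iff_forall]
      intro x
      obtain ⟨N, rfl⟩ : ∃ N : IndecInjective A, injPoint N = x := Quotient.exists_rep x
      exact ⟨N, rfl, by simp⟩
    · rw [Cb.cb_zero]
      symm
      rw [Set.eq_univ_iff_forall]
      intro x
      obtain ⟨N, rfl⟩ : ∃ N : IndecInjective Aᵐᵒᵖ, injPoint N = x := Quotient.exists_rep x
      exact ⟨N, rfl, by simp⟩
  | add_one α ih =>
    obtain ⟨S, h1, h2⟩ := ih
    refine ⟨S ∪ {f | IsPrim (KI S : Set A) f}, ?_, ?_⟩
    · rw [cb_add, h1]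
      exact derive_VV hreg G hG hspan S
    · rw [cb_add, h2, derive_VV (reg_op hreg) (MulOpposite.op '' G)
        (lt_of_le_of_lt Cardinal.mk_image_le hG) (span_op G hspan) (MulOpposite.op '' S)]
      congr 1
      rw [Set.image_union]
      congr 1
      ext f
      constructor
      · intro h
        exact ⟨f.unop, (isPrim_op S f.unop).1 h, rfl⟩
      · rintro ⟨g, hg, rfl⟩
        exact (isPrim_op S g).2 hg
  | limit α hα ih =>
    choose S h1 h2 using ih
    refine ⟨{a | ∃ β, ∃ h : β < α, a ∈ S β h}, ?_, ?_⟩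
    · rw [cb_lim _ α hα]
      ext x
      obtain ⟨N, rfl⟩ : ∃ N : IndecInjective A, injPoint N = x := Quotient.exists_rep x
      rw [mem_VV]
      constructor
      · rintro h a ⟨β, hβ, ha⟩
        have h3 := h β hβ
        rw [h1 β hβ, mem_VV] at h3
        exact h3 a ha
      · intro h β hβ
        rw [h1 β hβ, mem_VV]
        exact fun a ha => h a ⟨β, hβ, ha⟩
    · rw [cb_lim _ α hα]
      ext x
      obtain ⟨N, rfl⟩ : ∃ N : IndecInjective Aᵐᵒᵖ, injPoint N = x := Quotient.exists_rep x
      rw [mem_VV]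
      constructor
      · rintro h _ ⟨a, ⟨β, hβ, ha⟩, rfl⟩
        have h3 := h β hβ
        rw [h2 β hβ, mem_VV] at h3
        exact h3 _ ⟨a, ha, rfl⟩
      · intro h β hβ
        rw [h2 β hβ, mem_VV]
        rintro _ ⟨a, ha, rfl⟩
        exact h _ ⟨a, ⟨β, hβ, ha⟩, rfl⟩

theorem cb_empty_iff (hreg : ∀ a : A, ∃ x, a * x * a = a)
    (G : Set A) (hG : Cardinal.mk G < Cardinal.continuum)
    (hspan : Submodule.span (Subring.center A) G = ⊤) (α : Ordinal.{v}) :
    Cb.cb (InjSpectrum A) α = ∅ ↔ Cb.cb (InjSpectrum Aᵐᵒᵖ) α = ∅ := by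
  obtain ⟨S, h1, h2⟩ := exists_common_ideal hreg G hG hspan α
  rw [h1, h2, VV_empty hreg, VV_empty (reg_op hreg), ← KK_op S 1]
  rfl

end

end VNR
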