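import Pool.Agent.Helper462.Iso.W1
import Pool.Agent.Helper462.Cb.ZC
import Pool.Agent.Helper462.Vnr.Sym

/-!
# For von Neumann regular rings the Ziegler spectrum is the spectrum of indecomposable injectives
-/

namespace VNR

universe u v

open Zg

variable {A : Type u} [Ring A]

/-- from the Ziegler spectrum to the injective spectrum -/
def toInj (hreg : ∀ a : A, ∃ x, a * x * a = a) : ZieglerSpectrum A → InjSpectrum A :=
  Quotient.map (sa := zieglerSetoid A) (sb := injSetoid A)
    (fun N => ⟨N.carrier, (ZIso.pureInjective_iff_injective hreg N.carrier).1 N.pureInjective,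
      N.indecomposable⟩) (fun _ _ h => h)

/-- from the injective spectrum to the Ziegler spectrum -/
def ofInj (hreg : ∀ a : A, ∃ x, a * x * a = a) : InjSpectrum A → ZieglerSpectrum A :=
  Quotient.map (sa := injSetoid A) (sb := zieglerSetoid A)
    (fun N => ⟨N.carrier, (ZIso.pureInjective_iff_injective hreg N.carrier).2 N.injective,
      N.indecomposable⟩) (fun _ _ h => h)

theorem exists_zg (x : ZieglerSpectrum A) : ∃ N : IndecPureInjective A, zgPoint N = x :=
  Quotient.exists_rep x

theorem exists_inj (x : InjSpectrum A) : ∃ N : IndecInjective A, injPoint N = x :=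
  Quotient.exists_rep x

theorem ofInj_toInj (hreg : ∀ a : A, ∃ x, a * x * a = a) (x : ZieglerSpectrum A) :
    ofInj hreg (toInj hreg x) = x := by
  obtain ⟨N, rfl⟩ := exists_zg x
  rfl

theorem toInj_ofInj (hreg : ∀ a : A, ∃ x, a * x * a = a) (x : InjSpectrum A) :
    toInj hreg (ofInj hreg x) = x := by
  obtain ⟨N, rfl⟩ := exists_inj x
  rfl

theorem mem_injBasic_toInj (hreg : ∀ a : A, ∃ x, a * x * a = a) (N : IndecPureInjective A)
    (f : A) : toInj hreg (zgPoint N) ∈ injBasic f ↔ ∃ v : N.carrier, f • v ≠ 0 :=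
  mem_injBasic (⟨N.carrier, (ZIso.pureInjective_iff_injective hreg N.carrier).1 N.pureInjective,
      N.indecomposable⟩ : IndecInjective A) f

/-- the pair given by an idempotent `f`: `(1 - f) v = 0` over `v = 0` -/
theorem exists_pair (f : A) (hf : f * f = f) : ∃ φ ψ : PPFormula A, ψ.Le φ ∧
    (∀ (M : Type u) [AddCommGroup M] [Module A M] (v : M), v ∈ φ.sol M ↔ f • v = v) ∧
    (∀ (M : Type u) [AddCommGroup M] [Module A M] (v : M), v ∈ ψ.sol M ↔ v = 0) ∧
    ∀ (M : Type u) [AddCommGroup M] [Module A M], φ.sol M ≠ ψ.sol M ↔ ∃ v : M, f • v ≠ 0 := by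
  have h1 : ∀ (M : Type u) [AddCommGroup M] [Module A M] (v : M),
      v ∈ (⟨0, 1, fun _ i => i.elim0, fun _ => 1 - f⟩ : PPFormula A).sol M ↔ f • v = v := by
    intro M _ _ v
    constructor
    · rintro ⟨z, hz⟩
      have h := hz 0
      simp only [Finset.univ_eq_empty, Finset.sum_empty, sub_smul, one_smul] at h
      exact (sub_eq_zero.1 h.symm).symm
    · intro h
      refine ⟨fun i => i.elim0, fun j => ?_⟩
      simp only [Finset.univ_eq_empty, Finset.sum_empty, sub_smul, one_smul]
      rw [h, sub_self]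
  have h2 : ∀ (M : Type u) [AddCommGroup M] [Module A M] (v : M),
      v ∈ (⟨0, 1, fun _ i => i.elim0, fun _ => 1⟩ : PPFormula A).sol M ↔ v = 0 := by
    intro M _ _ v
    constructor
    · rintro ⟨z, hz⟩
      have h := hz 0
      simp only [Finset.univ_eq_empty, Finset.sum_empty, one_smul] at h
      exact h.symm
    · intro h
      refine ⟨fun i => i.elim0, fun j => ?_⟩
      simp only [Finset.univ_eq_empty, Finset.sum_empty, one_smul]
      rw [h]
  refine ⟨_, _, ?_, h1, h2, ?_⟩
  · intro M _ _ v hv
    rw [h2] at hv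
    rw [h1, hv, smul_zero]
  · intro M _ _
    constructor
    · intro h
      by_contra hcon
      push Not at hcon
      apply h
      ext v
      rw [h1, h2]
      constructor
      · intro hv
        rw [← hv]
        exact hcon v
      · rintro rfl
        rw [smul_zero]
    · rintro ⟨v, hv⟩ h
      apply hv
      rw [← h2, ← h, h1, smul_smul, hf]

/-- for a von Neumann regular ring the two spectra are homeomorphic -/
def zgHomeo (hreg : ∀ a : A, ∃ x, a * x * a = a) : ZieglerSpectrum A ≃ₜ InjSpectrum A where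
  toFun := toInj hreg
  invFun := ofInj hreg
  left_inv := ofInj_toInj hreg
  right_inv := toInj_ofInj hreg
  continuous_toFun := by
    apply continuous_generateFrom_iff.2
    rintro _ ⟨f, hf, rfl⟩
    obtain ⟨φ, ψ, hle, -, -, h⟩ := exists_pair f hf
    apply TopologicalSpace.isOpen_generateFrom_of_mem
    refine ⟨φ, ψ, hle, ?_⟩
    ext x
    obtain ⟨N, rfl⟩ := exists_zg x
    rw [Cb.mem_basicSet_aux, h N.carrier]
    exact mem_injBasic_toInj hreg N f
  continuous_invFun := by
    apply continuous_generateFrom_iff.2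
    rintro _ ⟨φ, ψ, hle, rfl⟩
    obtain ⟨f, hf, h⟩ := ZIso.pair_of_reg hreg φ ψ hle
    apply TopologicalSpace.isOpen_generateFrom_of_mem
    refine ⟨f, hf, ?_⟩
    ext x
    obtain ⟨N, rfl⟩ := exists_inj x
    rw [mem_injBasic]
    constructor
    · intro hx
      exact (h N.carrier).1 ((Cb.mem_basicSet_aux (⟨N.carrier,
        (ZIso.pureInjective_iff_injective hreg N.carrier).2 N.injective,
        N.indecomposable⟩ : IndecPureInjective A) φ ψ).1 hx)
    · intro hx
      exact (Cb.mem_basicSet_aux (⟨N.carrier,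
        (ZIso.pureInjective_iff_injective hreg N.carrier).2 N.injective,
        N.indecomposable⟩ : IndecPureInjective A) φ ψ).2 ((h N.carrier).2 hx)

/-- **Theorem.** The left and right Ziegler spectra have the same Cantor-Bendixson rank. -/
theorem cb_zg_iff (hreg : ∀ a : A, ∃ x, a * x * a = a)
    (G : Set A) (hG : Cardinal.mk G < Cardinal.continuum)
    (hspan : Submodule.span (Subring.center A) G = ⊤) (α : Ordinal.{v}) :
    Cb.cb (ZieglerSpectrum A) α = ∅ ↔ Cb.cb (ZieglerSpectrum Aᵐᵒᵖ) α = ∅ := by
  rw [cb_homeo (zgHomeo hreg), cb_homeo (zgHomeo (reg_op hreg))]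
  exact cb_empty_iff hreg G hG hspan α

end VNR
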