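import Pool.Agent.Helper462.Vnr.Local

/-!
# Isolated points of closed sets are isolated by primitive idempotents
-/

namespace VNR

universe u v

/-- local version of `exists_two_simple` -/
theorem exists_two_simple_local (A : Type u) [Ring A] (hreg : ∀ a : A, ∃ x, a * x * a = a)
    (G : Set A) (hG : Cardinal.mk G < Cardinal.continuum)
    (hspan : Submodule.span (Subring.center A) G = ⊤)
    (J : Ideal A) [J.IsTwoSided]
    (e : A) (he : e * e = e) (heJ : e ∉ J)
    (hJ : ∀ f : A, f * f = f → f ∉ J → e * f = f → f * e = f →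
      ¬ IsSimpleModule A (Submodule.map (Submodule.mkQ J) (Submodule.span A {f}))) :
    ∃ m₁ m₂ : Ideal A, m₁.IsMaximal ∧ m₂.IsMaximal ∧ J ≤ m₁ ∧ J ≤ m₂ ∧
      e • (Submodule.Quotient.mk (1 : A) : A ⧸ m₁) = Submodule.Quotient.mk (1 : A) ∧
      e • (Submodule.Quotient.mk (1 : A) : A ⧸ m₂) = Submodule.Quotient.mk (1 : A) ∧
      ¬ Nonempty ((A ⧸ m₁) ≃ₗ[A] (A ⧸ m₂)) := by
  obtain ⟨ε, hε0, hε⟩ := exists_local_tree A hreg J e he heJ hJ
  choose m hm hJm hfix using fun b => exists_branch_module A J ε hε b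
  by_contra hcon
  push Not at hcon
  have hfix0 : ∀ b, e • (Submodule.Quotient.mk (1 : A) : A ⧸ m b) = Submodule.Quotient.mk (1 : A) := by
    intro b
    have := hfix b 0
    rw [pre, hε0] at this
    exact this
  let b0 : ℕ → Bool := fun _ => true
  have hiso : ∀ b, Nonempty ((A ⧸ m b) ≃ₗ[A] (A ⧸ m b0)) := by
    intro b
    exact hcon (m b) (m b0) (hm b) (hm b0) (hJm b) (hJm b0) (hfix0 b) (hfix0 b0)
  let g : ∀ b, (A ⧸ m b) ≃ₗ[A] (A ⧸ m b0) := fun b => Classical.choice (hiso b)
  have := simple_quotient (m b0) (hm b0)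
  refine no_branches A G hG hspan (A ⧸ m b0) ε (fun s i => ((hε s).2.2 i).2.2.2)
    (fun s i => ((hε s).2.2 i).1) (fun s i => ((hε s).2.2 i).2.1)
    (fun b => g b (Submodule.Quotient.mk (1 : A))) ?_ ?_
  · intro b h
    have h1 : (Submodule.Quotient.mk (1 : A) : A ⧸ m b) = 0 := by
      apply (g b).injective
      rw [map_zero]
      exact h
    exact mk_one_ne (m b) (hm b) h1
  · intro b n
    rw [← map_smul, hfix b n]

/-- the closed set of the points killed by a set `S` of ring elements -/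
def VV {A : Type u} [Ring A] (S : Set A) : Set (InjSpectrum A) :=
  {x | ∃ N : IndecInjective A, injPoint N = x ∧ ∀ a ∈ S, ∀ v : N.carrier, a • v = 0}

theorem mem_VV {A : Type u} [Ring A] (S : Set A) (N : IndecInjective A) :
    injPoint N ∈ VV S ↔ ∀ a ∈ S, ∀ v : N.carrier, a • v = 0 := by
  constructor
  · rintro ⟨N', hN', h⟩ a ha v
    obtain ⟨g⟩ := injPoint_eq hN'
    obtain ⟨w, rfl⟩ := g.surjective v
    rw [← map_smul, h a ha w, map_zero]
  · intro h
    exact ⟨N, rfl, h⟩

/-- around every point of an open set there is a set `{c N ≠ 0}`, `c` idempotent -/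
theorem exists_idempotent_nhds (A : Type u) [Ring A] (hreg : ∀ a : A, ∃ x, a * x * a = a)
    (N : IndecInjective A) (U : Set (InjSpectrum A)) (hU : IsOpen U) (hN : injPoint N ∈ U) :
    ∃ c : A, c * c = c ∧ injPoint N ∈ injBasic c ∧ injBasic c ⊆ U := by
  classical
  obtain ⟨V, ⟨f, ⟨hf, hfS⟩, rfl⟩, hNV, hV⟩ :=
    (TopologicalSpace.isTopologicalBasis_of_subbasis
      (α := InjSpectrum A) rfl).exists_subset_of_mem_open hN hU
  have hfe : ∀ S ∈ f, ∃ e : A, S = injBasic e := fun S hS => by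
    obtain ⟨e, -, he⟩ := hfS hS
    exact ⟨e, he⟩
  choose! E hE using hfe
  let F : Finset A := hf.toFinset.image E
  have hunif := uniform_of_indec_injective A N.carrier N.injective N.indecomposable
  obtain ⟨c, hc, hx0, hcT⟩ := exists_common_idempotent A hreg N.carrier
    N.indecomposable.1 hunif F (by
      intro e he
      obtain ⟨S, hS, rfl⟩ := Finset.mem_image.1 he
      rw [Set.Finite.mem_toFinset] at hS
      have h1 : injPoint N ∈ S := hNV S hS
      rw [hE S hS, mem_injBasic] at h1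
      exact h1)
  refine ⟨c, hc, (mem_injBasic N c).2 hx0, ?_⟩
  rintro _ ⟨N', rfl, t, ht⟩
  apply hV
  intro S hS
  rw [hE S hS, mem_injBasic]
  exact hcT N'.carrier t ht (E S)
    (Finset.mem_image.2 ⟨S, (Set.Finite.mem_toFinset hf).2 hS, rfl⟩)

/-- the hull of a simple module killed by an ideal -/
theorem exists_hull' (A : Type u) [Ring A] (hreg : ∀ a : A, ∃ x, a * x * a = a)
    (J : Ideal A) [J.IsTwoSided] (T : Type u) [AddCommGroup T] [Module A T]
    (hT : IsSimpleModule A T) (hJT : ∀ a ∈ J, ∀ t : T, a • t = 0) :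
    ∃ (N : IndecInjective A) (f : T →ₗ[A] N.carrier), Function.Injective f ∧
      (∀ K : Submodule A N.carrier, K ≠ ⊥ → LinearMap.range f ≤ K) ∧
      ∀ a ∈ J, ∀ v : N.carrier, a • v = 0 := by
  obtain ⟨E, _, _, f, hE, hEi, hf, hK⟩ := exists_hull_of_simple A T
  refine ⟨⟨E, hE, hEi⟩, f, hf, hK, ?_⟩
  have := hT.nontrivial
  obtain ⟨t, ht⟩ := exists_ne (0 : T)
  refine ideal_kills A hreg E (uniform_of_indec_injective A E hE hEi) J (f t) ?_ ?_
  · intro h
    exact ht (hf (by rw [h, map_zero]))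
  · intro a ha
    rw [← map_smul, hJT a ha t, map_zero]

/-- **Isolation condition.** -/
theorem isolation (A : Type u) [Ring A] (hreg : ∀ a : A, ∃ x, a * x * a = a)
    (G : Set A) (hG : Cardinal.mk G < Cardinal.continuum)
    (hspan : Submodule.span (Subring.center A) G = ⊤)
    (J : Ideal A) [J.IsTwoSided]
    (N : IndecInjective A) (hN : injPoint N ∈ VV (J : Set A))
    (U : Set (InjSpectrum A)) (hU : IsOpen U) (hNU : injPoint N ∈ U)
    (huniq : ∀ y ∈ VV (J : Set A), y ∈ U → y = injPoint N) :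
    ∃ f : A, f * f = f ∧
      IsSimpleModule A (Submodule.map (Submodule.mkQ J) (Submodule.span A {f})) ∧
      injBasic f ∩ VV (J : Set A) = {injPoint N} := by
  obtain ⟨c, hc, hNc, hcU⟩ := exists_idempotent_nhds A hreg N U hU hNU
  rw [mem_VV] at hN
  rw [mem_injBasic] at hNc
  obtain ⟨x0, hx0⟩ := hNc
  have hcJ : c ∉ J := fun h => hx0 (hN c h x0)
  by_contra hcon
  push Not at hcon
  -- hulls of simple modules on which `c` acts are isomorphic to `N`
  have key : ∀ (T : Type u) [AddCommGroup T] [Module A T], IsSimpleModule A T →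
      (∀ a ∈ J, ∀ t : T, a • t = 0) → (∃ t : T, c • t ≠ 0) →
      ∃ f : T →ₗ[A] N.carrier, Function.Injective f ∧
        (∀ K : Submodule A N.carrier, K ≠ ⊥ → LinearMap.range f ≤ K) := by
    intro T _ _ hT hJT ⟨t, ht⟩
    obtain ⟨N', g, hg, hK, hJN⟩ := exists_hull' A hreg J T hT hJT
    have h1 : injPoint N' ∈ U := by
      apply hcU
      rw [mem_injBasic]
      refine ⟨g t, ?_⟩
      rw [← map_smul]
      intro h
      exact ht (hg (by rw [h, map_zero]))
    obtain ⟨e⟩ := injPoint_eq (huniq (injPoint N') ((mem_VV _ _).2 hJN) h1)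
    refine ⟨(e : N'.carrier →ₗ[A] N.carrier) ∘ₗ g, e.injective.comp hg, ?_⟩
    intro K hK0
    have h2 : LinearMap.range g ≤ K.comap (e : N'.carrier →ₗ[A] N.carrier) := by
      apply hK
      intro h
      apply hK0
      rw [eq_bot_iff]
      intro y hy
      have h3 : e.symm y ∈ K.comap (e : N'.carrier →ₗ[A] N.carrier) := by
        simpa using hy
      rw [h, Submodule.mem_bot] at h3
      rw [Submodule.mem_bot]
      simpa using h3
    rintro _ ⟨t, rfl⟩
    exact h2 ⟨t, rfl⟩
  obtain ⟨m₁, m₂, hm₁, hm₂, hJ₁, hJ₂, he₁, he₂, hne⟩ :=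
    exists_two_simple_local A hreg G hG hspan J c hc hcJ (by
      intro f hff hfJ hcf hfc hs
      refine hcon f hff hs ?_
      have hmem : (Submodule.Quotient.mk f : A ⧸ J) ∈
          Submodule.map (Submodule.mkQ J) (Submodule.span A {f}) :=
        ⟨f, Submodule.mem_span_singleton_self f, rfl⟩
      obtain ⟨g, hg, hK⟩ := key (Submodule.map (Submodule.mkQ J) (Submodule.span A {f})) hs (by
          rintro a ha ⟨t, ht⟩
          apply Subtype.ext
          obtain ⟨r, rfl⟩ := Submodule.Quotient.mk_surjective _ t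
          change a • (Submodule.Quotient.mk r : A ⧸ J) = 0
          rw [← Submodule.Quotient.mk_smul, Submodule.Quotient.mk_eq_zero, smul_eq_mul]
          exact Ideal.mul_mem_right r J ha)
        ⟨⟨_, hmem⟩, by
          intro h
          have h1 := congrArg Subtype.val h
          change c • (Submodule.Quotient.mk f : A ⧸ J) = 0 at h1
          rw [← Submodule.Quotient.mk_smul, Submodule.Quotient.mk_eq_zero, smul_eq_mul, hcf] at h1
          exact hfJ h1⟩
      apply Set.Subset.antisymm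
      · rintro _ ⟨⟨N', rfl, t, ht⟩, hN'⟩
        apply huniq _ hN'
        apply hcU
        rw [mem_injBasic]
        refine ⟨f • t, ?_⟩
        rw [smul_smul, hcf]
        exact ht
      · rintro _ rfl
        refine ⟨(mem_injBasic _ _).2 ⟨g ⟨_, hmem⟩, ?_⟩, (mem_VV _ _).2 hN⟩
        rw [← map_smul]
        intro h
        have h1 := hg (by rw [h, map_zero] : g (f • ⟨_, hmem⟩) = g 0)
        have h2 := congrArg Subtype.val h1
        change f • (Submodule.Quotient.mk f : A ⧸ J) = 0 at h2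
        rw [← Submodule.Quotient.mk_smul, Submodule.Quotient.mk_eq_zero, smul_eq_mul, hff] at h2
        exact hfJ h2)
  have hkill : ∀ m : Ideal A, J ≤ m → ∀ a ∈ J, ∀ t : A ⧸ m, a • t = 0 := by
    intro m hJm a ha t
    obtain ⟨r, rfl⟩ := Submodule.Quotient.mk_surjective _ t
    rw [← Submodule.Quotient.mk_smul, Submodule.Quotient.mk_eq_zero, smul_eq_mul]
    exact hJm (Ideal.mul_mem_right r J ha)
  obtain ⟨f₁, hf₁, hK₁⟩ := key (A ⧸ m₁) (simple_quotient m₁ hm₁) (hkill m₁ hJ₁)
    ⟨_, by rw [he₁]; exact mk_one_ne m₁ hm₁⟩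
  obtain ⟨f₂, hf₂, hK₂⟩ := key (A ⧸ m₂) (simple_quotient m₂ hm₂) (hkill m₂ hJ₂)
    ⟨_, by rw [he₂]; exact mk_one_ne m₂ hm₂⟩
  have := (simple_quotient m₁ hm₁).nontrivial
  have := (simple_quotient m₂ hm₂).nontrivial
  exact hne (socle_iso f₁ hf₁ hK₁ f₂ hf₂ hK₂ (LinearEquiv.refl A N.carrier))

end VNR
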