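import Pool.Agent.Helper462.Vnr.Main

namespace VNR

universe u v


theorem local_split (A : Type u) [Ring A] (hreg : ∀ a : A, ∃ x, a * x * a = a)
    (J : Ideal A)
    (f : A) (hf : f * f = f) (hfJ : f ∉ J)
    (hJ : ¬ IsSimpleModule A (Submodule.map (Submodule.mkQ J) (Submodule.span A {f}))) :
    ∃ f0 : A, f0 * f0 = f0 ∧ f0 ∉ J ∧ f * f0 = f0 ∧ f0 * f = f0 ∧ f - f0 ∉ J := by
  have key : ∃ r : A, r * f ∉ J ∧ ¬ ∃ c j, j ∈ J ∧ f = c * (r * f) + j := by
    by_contra hcon
    push Not at hcon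
    apply hJ
    rw [isSimpleModule_iff_toSpanSingleton_surjective]
    constructor
    · refine ⟨⟨⟨Submodule.mkQ J f, Submodule.mem_map_of_mem (Submodule.mem_span_singleton_self f)⟩,
        0, ?_⟩⟩
      intro h
      have h1 := congrArg Subtype.val h
      simp only [Submodule.mkQ_apply, ZeroMemClass.coe_zero, Submodule.Quotient.mk_eq_zero] at h1
      exact hfJ h1
    · rintro ⟨x, hx⟩ hx0
      obtain ⟨bb, hbb, rfl⟩ := Submodule.mem_map.1 hx
      obtain ⟨r, rfl⟩ := Submodule.mem_span_singleton.1 hbb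
      have hr : r * f ∉ J := by
        intro h
        apply hx0
        apply Subtype.ext
        simp only [Submodule.mkQ_apply, ZeroMemClass.coe_zero, Submodule.Quotient.mk_eq_zero]
        exact h
      obtain ⟨c, j, hj, hcj⟩ := hcon r hr
      rintro ⟨y, hy⟩
      obtain ⟨dd, hdd, rfl⟩ := Submodule.mem_map.1 hy
      obtain ⟨t, rfl⟩ := Submodule.mem_span_singleton.1 hdd
      refine ⟨t * c, ?_⟩
      apply Subtype.ext
      simp only [LinearMap.toSpanSingleton_apply, SetLike.val_smul, Submodule.mkQ_apply]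
      rw [← Submodule.Quotient.mk_smul, Submodule.Quotient.eq]
      have h2 : (t * c) • r • f - t • f = -(t * j) := by
        simp only [smul_eq_mul]
        conv_lhs => rw [show t * f = t * (c * (r * f) + j) by rw [← hcj]]
        noncomm_ring
      rw [h2]
      exact J.neg_mem (J.mul_mem_left t hj)
  obtain ⟨r, hrJ, hno⟩ := key
  obtain ⟨x, hx⟩ := hreg (r * f)
  set b : A := r * f with hb
  set h : A := x * b with hh
  have hhh : h * h = h := by
    rw [hh]
    calc x * b * (x * b) = x * (b * x * b) := by noncomm_ring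
      _ = x * b := by rw [hx]
  have hbh : b * h = b := by
    rw [hh]
    calc b * (x * b) = b * x * b := by noncomm_ring
      _ = b := hx
  have hbf : b * f = b := by
    rw [hb]
    calc r * f * f = r * (f * f) := by noncomm_ring
      _ = r * f := by rw [hf]
  have hhf : h * f = h := by
    rw [hh]
    calc x * b * f = x * (b * f) := by noncomm_ring
      _ = x * b := by rw [hbf]
  refine ⟨f * h, ?_, ?_, ?_, ?_, ?_⟩
  · calc f * h * (f * h) = f * (h * f) * h := by noncomm_ring
      _ = f * (h * h) := by rw [hhf]; noncomm_ring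
      _ = f * h := by rw [hhh]
  · intro h1
    have h2 : h * (f * h) ∈ J := J.mul_mem_left h h1
    have h3 : h * (f * h) = h := by
      calc h * (f * h) = (h * f) * h := by noncomm_ring
        _ = h := by rw [hhf, hhh]
    rw [h3] at h2
    have h4 : b * h ∈ J := J.mul_mem_left b h2
    rw [hbh] at h4
    exact hrJ h4
  · calc f * (f * h) = (f * f) * h := by noncomm_ring
      _ = f * h := by rw [hf]
  · calc f * h * f = f * (h * f) := by noncomm_ring
      _ = f * h := by rw [hhf]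
  · intro h1
    apply hno
    refine ⟨f * x, f - f * h, h1, ?_⟩
    rw [hh]
    noncomm_ring

theorem exists_local_tree (A : Type u) [Ring A] (hreg : ∀ a : A, ∃ x, a * x * a = a)
    (J : Ideal A) [J.IsTwoSided]
    (e : A) (he : e * e = e) (heJ : e ∉ J)
    (hJ : ∀ f : A, f * f = f → f ∉ J → e * f = f → f * e = f →
      ¬ IsSimpleModule A (Submodule.map (Submodule.mkQ J) (Submodule.span A {f}))) :
    ∃ ε : List Bool → A, ε [] = e ∧ ∀ s, ε s * ε s = ε s ∧ ε s ∉ J ∧
      (∀ i, ε (i :: s) * ε s = ε (i :: s) ∧ ε s * ε (i :: s) = ε (i :: s) ∧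
        ε (i :: s) + ε ((!i) :: s) = ε s ∧ ε (i :: s) * ε ((!i) :: s) = 0) := by
  classical
  have hsp := fun t : {f : A // f * f = f ∧ f ∉ J ∧ e * f = f ∧ f * e = f} => local_split A hreg J t.1 t.2.1 t.2.2.1 (hJ t.1 t.2.1 t.2.2.1 t.2.2.2.1 t.2.2.2.2)
  choose g hg1 hg2 hg3 hg4 hg5 using hsp
  let G : {f : A // f * f = f ∧ f ∉ J ∧ e * f = f ∧ f * e = f} → {f : A // f * f = f ∧ f ∉ J ∧ e * f = f ∧ f * e = f} :=
    fun t => ⟨g t, hg1 t, hg2 t, by
      rw [← hg3 t, ← mul_assoc, t.2.2.2.1], by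
      rw [← hg4 t, mul_assoc, t.2.2.2.2]⟩
  let CG : {f : A // f * f = f ∧ f ∉ J ∧ e * f = f ∧ f * e = f} → {f : A // f * f = f ∧ f ∉ J ∧ e * f = f ∧ f * e = f} :=
    fun t => ⟨t.1 - g t, by
      have h1 := hg1 t
      have h3 := hg3 t
      have h4 := hg4 t
      have h5 := t.2.1
      calc (t.1 - g t) * (t.1 - g t) = t.1 * t.1 - t.1 * g t - g t * t.1 + g t * g t := by
            noncomm_ring
        _ = t.1 - g t := by rw [h1, h3, h4, h5]; abel, hg5 t, by
      rw [mul_sub, t.2.2.2.1, ← hg3 t, ← mul_assoc, t.2.2.2.1], by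
      rw [sub_mul, t.2.2.2.2, ← hg4 t, mul_assoc, t.2.2.2.2]⟩
  let E : List Bool → {f : A // f * f = f ∧ f ∉ J ∧ e * f = f ∧ f * e = f} := fun s =>
    List.rec (motive := fun _ => {f : A // f * f = f ∧ f ∉ J ∧ e * f = f ∧ f * e = f}) ⟨e, he, heJ, he, he⟩
      (fun i _ t => if i = true then G t else CG t) s
  have hEt : ∀ s, (E (true :: s)).1 = g (E s) := fun s => by simp [E, G]
  have hEf : ∀ s, (E (false :: s)).1 = (E s).1 - g (E s) := fun s => by simp [E, CG]
  refine ⟨fun s => (E s).1, rfl, ?_⟩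
  intro s
  refine ⟨(E s).2.1, (E s).2.2.1, ?_⟩
  have h1 := hg1 (E s)
  have h3 := hg3 (E s)
  have h4 := hg4 (E s)
  have h5 := (E s).2.1
  intro i
  cases i
  · simp only [Bool.not_false]
    rw [hEt, hEf]
    refine ⟨?_, ?_, ?_, ?_⟩
    · rw [sub_mul, h5, h4]
    · rw [mul_sub, h5, h3]
    · abel
    · rw [sub_mul, h3, h1, sub_self]
  · simp only [Bool.not_true]
    rw [hEt, hEf]
    refine ⟨h4, h3, ?_, ?_⟩
    · abel
    · rw [mul_sub, h4, h1, sub_self]

end VNR
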