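import Pool.Agent.Helper462.Vnr.Homeo

/-!
# The isolation condition in terms of pp pairs, and elementary duality
-/

namespace VNR

universe u v

open Zg

/-- `θ ≤ θ'` on the closed set `Y`: `θ(N) ⊆ θ'(N)` for every `N ∈ Y` -/
def LeOn {A : Type u} [Ring A] (Y : Set (ZieglerSpectrum A)) (θ θ' : PPFormula A) : Prop :=
  ∀ N : IndecPureInjective A, zgPoint N ∈ Y → θ.sol N.carrier ⊆ θ'.sol N.carrier

/-- the pair `φ/ψ` is `Y`-minimal: the interval `[φ, ψ]` in the lattice of pp conditions modulo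
`Y`-equivalence has exactly two elements -/
def IsMinimalOn {A : Type u} [Ring A] (Y : Set (ZieglerSpectrum A)) (φ ψ : PPFormula A) : Prop :=
  LeOn Y ψ φ ∧ ¬ LeOn Y φ ψ ∧
    ∀ θ : PPFormula A, LeOn Y ψ θ → LeOn Y θ φ → LeOn Y θ ψ ∨ LeOn Y φ θ

/-- `X` satisfies the isolation condition: for every closed `Y ⊆ X`, every point isolated in `Y` is
isolated in `Y` by a `Y`-minimal pair -/
def IsolationCondition {A : Type u} [Ring A] (X : Set (ZieglerSpectrum A)) : Prop :=
  ∀ Y : Set (ZieglerSpectrum A), Y ⊆ X → IsClosed Y → ∀ x ∈ Y,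
    (∃ U : Set (ZieglerSpectrum A), IsOpen U ∧ U ∩ Y = {x}) →
      ∃ φ ψ : PPFormula A, ψ.Le φ ∧ basicSet φ ψ ∩ Y = {x} ∧ IsMinimalOn Y φ ψ

/-- the elementary dual of a pp formula for right `R`-modules is a pp formula for left
`R`-modules: the dual of `∃ z, ⋀ j, ∑ i, z i B j i = v a j` is
`∃ w, (⋀ i, ∑ j, B j i w j = 0) ∧ ∑ j, a j w j = v` -/
def dual {R : Type u} [Ring R] (φ : PPFormula Rᵐᵒᵖ) : PPFormula R :=
  { m := φ.l
    l := φ.m + 1
    B := Fin.snoc (fun i j => (φ.B j i).unop) (fun j => (φ.a j).unop)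
    a := Fin.snoc (fun _ => 0) 1 }

/-- the dual `DX` of a closed set `X` of the right spectrum: the complement of the union of the
sets `(Dψ/Dφ)` over all pairs with `(φ/ψ) ∩ X = ∅` -/
def dualSet {R : Type u} [Ring R] (X : Set (ZieglerSpectrum Rᵐᵒᵖ)) : Set (ZieglerSpectrum R) :=
  {x | ∀ φ ψ : PPFormula Rᵐᵒᵖ, ψ.Le φ → basicSet φ ψ ∩ X = ∅ → x ∉ basicSet (dual ψ) (dual φ)}

variable {A : Type u} [Ring A]

theorem mem_dual {R : Type u} [Ring R] (φ : PPFormula Rᵐᵒᵖ) (M : Type u) [AddCommGroup M]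
    [Module R M] (v : M) : v ∈ (dual φ).sol M ↔ ∃ w : Fin φ.l → M,
      (∀ i, ∑ j, (φ.B j i).unop • w j = 0) ∧ ∑ j, (φ.a j).unop • w j = v := by
  constructor
  · rintro ⟨w, hw⟩
    refine ⟨w, fun i => ?_, ?_⟩
    · have h := hw (Fin.castSucc i)
      simp only [dual, Fin.snoc_castSucc, zero_smul] at h
      exact h
    · have h := hw (Fin.last _)
      simp only [dual, Fin.snoc_last, one_smul] at h
      exact h
  · rintro ⟨w, h1, h2⟩
    refine ⟨w, fun j => ?_⟩
    refine Fin.lastCases ?_ (fun i => ?_) j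
    · simp only [dual, Fin.snoc_last, one_smul]
      exact h2
    · simp only [dual, Fin.snoc_castSucc, zero_smul]
      exact h1 i

/-- for a regular ring generated over its centre by fewer than continuum elements, every set of
points satisfies the isolation condition -/
theorem isolationCondition (hreg : ∀ a : A, ∃ x, a * x * a = a)
    (G : Set A) (hG : Cardinal.mk G < Cardinal.continuum)
    (hspan : Submodule.span (Subring.center A) G = ⊤) (X : Set (ZieglerSpectrum A)) :
    IsolationCondition X := by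
  rintro Y - hY x hx ⟨U, hU, hUY⟩
  let e := zgHomeo hreg
  obtain ⟨Z, hZ⟩ : ∃ Z : Set (InjSpectrum A), Z = e.symm ⁻¹' Y := ⟨_, rfl⟩
  have hZc : IsClosed Z := by rw [hZ]; exact hY.preimage e.symm.continuous
  obtain ⟨S, hS⟩ : ∃ S : Set A, S = {a | ∀ N : IndecInjective A, injPoint N ∈ Z →
    ∀ v : N.carrier, a • v = 0} := ⟨_, rfl⟩
  have hZS : Z = VV S := by
    apply Set.Subset.antisymm
    · intro y hy
      obtain ⟨N, rfl⟩ := exists_inj y
      rw [mem_VV]
      intro a ha
      rw [hS] at ha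
      exact ha N hy
    · intro y hy
      obtain ⟨N, rfl⟩ := exists_inj y
      by_contra hN
      obtain ⟨c, hc, hNc, hcZ⟩ := exists_idempotent_nhds A hreg N Zᶜ hZc.isOpen_compl hN
      have hcS : c ∈ S := by
        rw [hS]
        intro N' hN' v
        by_contra hv
        exact hcZ ((mem_injBasic N' c).2 ⟨v, hv⟩) hN'
      rw [mem_VV] at hy
      obtain ⟨v, hv⟩ := (mem_injBasic N c).1 hNc
      exact hv (hy c hcS v)
  obtain ⟨N₀, hN₀⟩ := exists_inj (e x)
  have hxe : e.symm (injPoint N₀) = x := by rw [hN₀]; simp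
  have hxU : x ∈ U := by
    have : x ∈ U ∩ Y := by rw [hUY]; rfl
    exact this.1
  obtain ⟨f, hf, hs, hfx⟩ := isolation A hreg G hG hspan (KI S) N₀
    (by rw [VV_KI, ← hZS, hZ, Set.mem_preimage, hxe]; exact hx)
    (e.symm ⁻¹' U) (hU.preimage e.symm.continuous)
    (by rw [Set.mem_preimage, hxe]; exact hxU)
    (by
      intro y hy hyU
      rw [VV_KI, ← hZS, hZ] at hy
      have h1 : e.symm y ∈ U ∩ Y := ⟨hyU, hy⟩
      rw [hUY] at h1
      apply e.symm.injective
      rw [hxe]
      exact h1)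
  rw [VV_KI, ← hZS] at hfx
  obtain ⟨φ, ψ, hle, hφ, hψ, hne⟩ := exists_pair f hf
  have hbasic : ∀ N : IndecPureInjective A, zgPoint N ∈ basicSet φ ψ ↔
      e (zgPoint N) ∈ injBasic f := by
    intro N
    rw [Cb.mem_basicSet_aux, hne N.carrier]
    exact (mem_injBasic_toInj hreg N f).symm
  have hkill : ∀ N : IndecPureInjective A, zgPoint N ∈ Y → ∀ a ∈ KI S, ∀ v : N.carrier,
      a • v = 0 := by
    intro N hN
    have h1 : injPoint (⟨N.carrier, (ZIso.pureInjective_iff_injective hreg N.carrier).1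
        N.pureInjective, N.indecomposable⟩ : IndecInjective A) ∈ VV (KI S : Set A) := by
      rw [VV_KI, ← hZS, hZ]
      exact hN
    exact (mem_VV _ _).1 h1
  refine ⟨φ, ψ, hle, ?_, ?_, ?_, ?_⟩
  · ext y
    obtain ⟨N, rfl⟩ := exists_zg y
    constructor
    · rintro ⟨h1, h2⟩
      rw [hbasic] at h1
      have h3 : e (zgPoint N) ∈ injBasic f ∩ Z := ⟨h1, by
        rw [hZ, Set.mem_preimage]; simpa using h2⟩
      rw [hfx] at h3
      have h4 : e (zgPoint N) = injPoint N₀ := h3
      rw [hN₀] at h4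
      exact e.injective h4
    · intro h1
      have h2 : zgPoint N = x := h1
      have h3 : e (zgPoint N) ∈ injBasic f ∩ Z := by
        rw [hfx, h2, hN₀]; rfl
      exact ⟨(hbasic N).2 h3.1, by rw [h2]; exact hx⟩
  · intro N _
    exact hle N.carrier
  · intro h
    obtain ⟨N, hN⟩ := exists_zg x
    have h3 : e (zgPoint N) ∈ injBasic f ∩ Z := by
      rw [hfx, hN, hN₀]; rfl
    have h4 := (hbasic N).2 h3.1
    rw [Cb.mem_basicSet_aux] at h4
    exact h4 (Set.Subset.antisymm (h N (by rw [hN]; exact hx)) (hle N.carrier))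
  · intro θ h1 h2
    obtain ⟨g, hg, hθ⟩ := ZIso.pp_of_reg hreg θ
    by_cases hgf : g * f ∈ KI S
    · right
      intro N hN v hv
      rw [hφ] at hv
      rw [hθ, ← hv, smul_smul]
      exact hkill N hN _ hgf v
    · left
      -- `f ∈ A g f + J`
      have hmem : (Submodule.Quotient.mk (g * f) : A ⧸ KI S) ∈
          Submodule.map (Submodule.mkQ (KI S)) (Submodule.span A {f}) :=
        ⟨g * f, Submodule.mem_span_singleton.2 ⟨g, rfl⟩, rfl⟩
      have hfm : (Submodule.Quotient.mk f : A ⧸ KI S) ∈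
          Submodule.map (Submodule.mkQ (KI S)) (Submodule.span A {f}) :=
        ⟨f, Submodule.mem_span_singleton_self f, rfl⟩
      have hne0 : (⟨_, hmem⟩ : Submodule.map (Submodule.mkQ (KI S)) (Submodule.span A {f})) ≠ 0 := by
        intro h
        have := congrArg Subtype.val h
        exact hgf ((Submodule.Quotient.mk_eq_zero _).1 this)
      have htop := IsSimpleModule.toSpanSingleton_surjective A hne0
      obtain ⟨c, hc⟩ := htop ⟨_, hfm⟩
      have hc1 := congrArg Subtype.val hc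
      have hc2 : c • (Submodule.Quotient.mk (g * f) : A ⧸ KI S) = Submodule.Quotient.mk f := hc1
      rw [← Submodule.Quotient.mk_smul, Submodule.Quotient.eq, smul_eq_mul] at hc2
      intro N hN v hv
      have hv2 := h2 N hN hv
      rw [hφ] at hv2
      rw [hθ] at hv
      rw [hψ]
      have h5 := hkill N hN _ hc2 v
      rw [sub_smul, mul_smul, mul_smul, hv2, hv, smul_zero, zero_sub, neg_eq_zero] at h5
      exact h5

end VNR
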