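import Pool.Agent.Helper462.Vnr.Defs

namespace VNR

universe u v


theorem h74_split (A : Type u) [Ring A] (hreg : ∀ a : A, ∃ x, a * x * a = a)
    (J : Ideal A)
    (hJ : ∀ S : Submodule A (A ⧸ J), ¬ IsSimpleModule A S)
    (f : A) (hf : f * f = f) (hfJ : f ∉ J) :
    ∃ f0 : A, f0 * f0 = f0 ∧ f0 ∉ J ∧ f * f0 = f0 ∧ f0 * f = f0 ∧ f - f0 ∉ J := by
  have key : ∃ r : A, r * f ∉ J ∧ ¬ ∃ c j, j ∈ J ∧ f = c * (r * f) + j := by
    by_contra hcon
    push Not at hcon
    apply hJ (Submodule.map (Submodule.mkQ J) (Submodule.span A {f}))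
    rw [isSimpleModule_iff_toSpanSingleton_surjective]
    constructor
    · refine ⟨⟨⟨Submodule.mkQ J f, Submodule.mem_map_of_mem (Submodule.mem_span_singleton_self f)⟩,
        0, ?_⟩⟩
      intro h
      have h1 := congrArg Subtype.val h
      simp only [Submodule.mkQ_apply, ZeroMemClass.coe_zero, Submodule.Quotient.mk_eq_zero] at h1
      exact hfJ h1
    · rintro ⟨x, hx⟩ hx0
      obtain ⟨bb, hbb, rfl⟩ := Submodule.mem_map.1 hx
      obtain ⟨r, rfl⟩ := Submodule.mem_span_singleton.1 hbb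
      have hr : r * f ∉ J := by
        intro h
        apply hx0
        apply Subtype.ext
        simp only [Submodule.mkQ_apply, ZeroMemClass.coe_zero, Submodule.Quotient.mk_eq_zero]
        exact h
      obtain ⟨c, j, hj, hcj⟩ := hcon r hr
      rintro ⟨y, hy⟩
      obtain ⟨dd, hdd, rfl⟩ := Submodule.mem_map.1 hy
      obtain ⟨t, rfl⟩ := Submodule.mem_span_singleton.1 hdd
      refine ⟨t * c, ?_⟩
      apply Subtype.ext
      simp only [LinearMap.toSpanSingleton_apply, SetLike.val_smul, Submodule.mkQ_apply]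
      rw [← Submodule.Quotient.mk_smul, Submodule.Quotient.eq]
      have h2 : (t * c) • r • f - t • f = -(t * j) := by
        simp only [smul_eq_mul]
        conv_lhs => rw [show t * f = t * (c * (r * f) + j) by rw [← hcj]]
        noncomm_ring
      rw [h2]
      exact J.neg_mem (J.mul_mem_left t hj)
  obtain ⟨r, hrJ, hno⟩ := key
  obtain ⟨x, hx⟩ := hreg (r * f)
  set b : A := r * f with hb
  set h : A := x * b with hh
  have hhh : h * h = h := by
    rw [hh]
    calc x * b * (x * b) = x * (b * x * b) := by noncomm_ring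
      _ = x * b := by rw [hx]
  have hbh : b * h = b := by
    rw [hh]
    calc b * (x * b) = b * x * b := by noncomm_ring
      _ = b := hx
  have hbf : b * f = b := by
    rw [hb]
    calc r * f * f = r * (f * f) := by noncomm_ring
      _ = r * f := by rw [hf]
  have hhf : h * f = h := by
    rw [hh]
    calc x * b * f = x * (b * f) := by noncomm_ring
      _ = x * b := by rw [hbf]
  refine ⟨f * h, ?_, ?_, ?_, ?_, ?_⟩
  · calc f * h * (f * h) = f * (h * f) * h := by noncomm_ring
      _ = f * (h * h) := by rw [hhf]; noncomm_ring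
      _ = f * h := by rw [hhh]
  · intro h1
    have h2 : h * (f * h) ∈ J := J.mul_mem_left h h1
    have h3 : h * (f * h) = h := by
      calc h * (f * h) = (h * f) * h := by noncomm_ring
        _ = h := by rw [hhf, hhh]
    rw [h3] at h2
    have h4 : b * h ∈ J := J.mul_mem_left b h2
    rw [hbh] at h4
    exact hrJ h4
  · calc f * (f * h) = (f * f) * h := by noncomm_ring
      _ = f * h := by rw [hf]
  · calc f * h * f = f * (h * f) := by noncomm_ring
      _ = f * h := by rw [hhf]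
  · intro h1
    apply hno
    refine ⟨f * x, f - f * h, h1, ?_⟩
    rw [hh]
    noncomm_ring

theorem exists_idempotent_tree (A : Type u) [Ring A] (hreg : ∀ a : A, ∃ x, a * x * a = a)
    (J : Ideal A) [J.IsTwoSided]
    (hJ : ∀ S : Submodule A (A ⧸ J), ¬ IsSimpleModule A S)
    (e : A) (he : e * e = e) (heJ : e ∉ J) :
    ∃ ε : List Bool → A, ε [] = e ∧ ∀ s, ε s * ε s = ε s ∧ ε s ∉ J ∧
      (∀ i, ε (i :: s) * ε s = ε (i :: s) ∧ ε s * ε (i :: s) = ε (i :: s) ∧
        ε (i :: s) + ε ((!i) :: s) = ε s ∧ ε (i :: s) * ε ((!i) :: s) = 0) := by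
  classical
  have hsp := fun t : {f : A // f * f = f ∧ f ∉ J} => h74_split A hreg J hJ t.1 t.2.1 t.2.2
  choose g hg1 hg2 hg3 hg4 hg5 using hsp
  let G : {f : A // f * f = f ∧ f ∉ J} → {f : A // f * f = f ∧ f ∉ J} :=
    fun t => ⟨g t, hg1 t, hg2 t⟩
  let CG : {f : A // f * f = f ∧ f ∉ J} → {f : A // f * f = f ∧ f ∉ J} :=
    fun t => ⟨t.1 - g t, by
      have h1 := hg1 t
      have h3 := hg3 t
      have h4 := hg4 t
      have h5 := t.2.1
      calc (t.1 - g t) * (t.1 - g t) = t.1 * t.1 - t.1 * g t - g t * t.1 + g t * g t := by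
            noncomm_ring
        _ = t.1 - g t := by rw [h1, h3, h4, h5]; abel, hg5 t⟩
  let E : List Bool → {f : A // f * f = f ∧ f ∉ J} := fun s =>
    List.rec (motive := fun _ => {f : A // f * f = f ∧ f ∉ J}) ⟨e, he, heJ⟩
      (fun i _ t => if i = true then G t else CG t) s
  have hEt : ∀ s, (E (true :: s)).1 = g (E s) := fun s => by simp [E, G]
  have hEf : ∀ s, (E (false :: s)).1 = (E s).1 - g (E s) := fun s => by simp [E, CG]
  refine ⟨fun s => (E s).1, rfl, ?_⟩
  intro s
  refine ⟨(E s).2.1, (E s).2.2, ?_⟩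
  have h1 := hg1 (E s)
  have h3 := hg3 (E s)
  have h4 := hg4 (E s)
  have h5 := (E s).2.1
  intro i
  cases i
  · simp only [Bool.not_false]
    rw [hEt, hEf]
    refine ⟨?_, ?_, ?_, ?_⟩
    · rw [sub_mul, h5, h4]
    · rw [mul_sub, h5, h3]
    · abel
    · rw [sub_mul, h3, h1, sub_self]
  · simp only [Bool.not_true]
    rw [hEt, hEf]
    refine ⟨h4, h3, ?_, ?_⟩
    · abel
    · rw [mul_sub, h4, h1, sub_self]

theorem exists_branch_module (A : Type u) [Ring A] (J : Ideal A) [J.IsTwoSided]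
    (ε : List Bool → A)
    (hε : ∀ s, ε s * ε s = ε s ∧ ε s ∉ J ∧
      (∀ i, ε (i :: s) * ε s = ε (i :: s) ∧ ε s * ε (i :: s) = ε (i :: s) ∧
        ε (i :: s) + ε ((!i) :: s) = ε s ∧ ε (i :: s) * ε ((!i) :: s) = 0))
    (b : ℕ → Bool) :
    ∃ m : Ideal A, m.IsMaximal ∧ J ≤ m ∧
      ∀ n, ε (pre b n) • (Submodule.Quotient.mk (1 : A) : A ⧸ m) = Submodule.Quotient.mk (1 : A) := by
  have hmul : ∀ n m : ℕ, n ≤ m → ε (pre b n) * ε (pre b m) = ε (pre b m) := by
    intro n m hnm
    induction m, hnm using Nat.le_induction with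
    | base => exact (hε _).1
    | succ m hm ih =>
      have h1 : ε (pre b m) * ε (pre b (m + 1)) = ε (pre b (m + 1)) :=
        ((hε (pre b m)).2.2 (b m)).2.1
      calc ε (pre b n) * ε (pre b (m + 1)) = ε (pre b n) * (ε (pre b m) * ε (pre b (m + 1))) := by
            rw [h1]
        _ = (ε (pre b n) * ε (pre b m)) * ε (pre b (m + 1)) := by rw [mul_assoc]
        _ = ε (pre b (m + 1)) := by rw [ih, h1]
  let K : Ideal A :=
    { carrier := {x | ∃ M : ℕ, ∀ m, M ≤ m → x * ε (pre b m) ∈ J}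
      add_mem' := by
        rintro x y ⟨M1, h1⟩ ⟨M2, h2⟩
        refine ⟨max M1 M2, fun m hm => ?_⟩
        rw [add_mul]
        exact J.add_mem (h1 m ((le_max_left _ _).trans hm)) (h2 m ((le_max_right _ _).trans hm))
      zero_mem' := ⟨0, fun m _ => by rw [zero_mul]; exact J.zero_mem⟩
      smul_mem' := by
        rintro c x ⟨M, h⟩
        refine ⟨M, fun m hm => ?_⟩
        rw [smul_eq_mul, mul_assoc]
        exact J.mul_mem_left c (h m hm) }
  have hKne : K ≠ ⊤ := by
    intro h
    have h1 : (1 : A) ∈ K := by rw [h]; trivial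
    obtain ⟨M, hM⟩ := h1
    have := hM M le_rfl
    rw [one_mul] at this
    exact (hε _).2.1 this
  obtain ⟨m, hm, hKm⟩ := Ideal.exists_le_maximal K hKne
  refine ⟨m, hm, ?_, ?_⟩
  · refine le_trans ?_ hKm
    intro x hx
    exact ⟨0, fun k _ => Ideal.mul_mem_right _ J hx⟩
  · intro n
    rw [← Submodule.Quotient.mk_smul, Submodule.Quotient.eq, smul_eq_mul, mul_one]
    apply hKm
    refine ⟨n, fun k hk => ?_⟩
    rw [sub_mul, one_mul, hmul n k hk, sub_self]
    exact J.zero_mem

end VNR
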